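import Pool.Agent.Mg.F682409.Gf29adc
import Pool.Agent.Mg.F53d700.G85e9aa
import Pool.Agent.Mg.F53d700.G8aa6d5
import Pool.Agent.Mg.F53d700.Gbdc705

set_option linter.all false

section

/-! The end of the proof with the explicit level. -/

namespace Pool.Agent.MP_682409_ag.Tor

open IsLocalRing Polynomial CategoryTheory Limits AlgebraicGeometry

noncomputable section

namespace FinX

open ALG in
theorem alg (A : Type) [CommRing A] [IsDomain A] [IsDiscreteValuationRing A]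
    [HenselianLocalRing A] (π : A) (hπ : Irreducible π) (X : Fr0 A) (hReg : X.Reg) (d : ℕ)
    (hη : X.hor X.η) (hδ : X.δ X.η = d + 1) (m : ℕ) (hm : 1 ≤ m) (hb : X.BB π m)
    (N : NormFam.{0}) (hN : IsNorm N) (hG : X.FG' N d) (n : ℕ) (hn : 1 ≤ n) (hn' : m + 2 * d ≤ n)
    (CG CK : Cous X.P X.sp X.δ (d + 1)) (f : ∀ x, CG.C x →+ CK.C x)
    (e₀ : CK.C X.η →+ KM (X.κ X.η)) (hf : ∀ w x a, f x (CG.ι w x a) = CK.ι w x (f w a))
    (hf0 : Function.Bijective (f X.η)) (he0 : Function.Injective e₀)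
    (he0' : ∀ c, c ∈ Kn _ d ↔ ∃ a, e₀ a = c)
    (hK1 : ∀ y, X.δ y = d → ∀ a, CK.ι X.η y a = 0 ↔ e₀ a ∈ X.RK d y)
    (hG1 : ∀ y, X.δ y = d → X.hor y → ∀ a, CG.ι X.η y a = 0 ↔ e₀ (f X.η a) ∈ X.RK d y)
    (hG2 : ∀ y, X.δ y = d → ¬X.hor y → ∀ a,
      CG.ι X.η y a = 0 ↔ e₀ (f X.η a) ∈ X.RG (π ^ n) d y) :
    CG.Top ∧
    (∀ x, (1 ≤ X.δ x ∨ d = 1) → ∀ a, (∀ w, X.sp w x → CK.ι X.η w a = 0) → e₀ a ∈ X.RK d x) ∧
    (∀ x m, 2 ≤ m → m ≤ d → CK.ExAt x m) ∧ CG.Zc CK f := by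
  have F := facts_stmt df_stmt A X
  have hclo := clo_stmt hen1_stmt A X F
  have bx := bx_stmt dv_stmt A π hπ X F m hm hb
  obtain ⟨e, e1, e2, e3, e4, e5⟩ := czk_stmt A X F d hδ N hN hG CK e₀ he0 he0' hK1
  have hlt : ∀ w, w ≠ X.η → X.δ w < d + 1 := fun w h => hδ ▸ F.strict (X.gen w) h.symm
  have bij := CG.bij CK f hf X.η (fun w h => not_not.1 fun h' => (hlt w h').ne h)
    (fun w => by
      by_cases h : w = X.η
      · rw [h, hδ]
      · exact (hlt w h).le)
    (fun _ _ _ => F.trans) {y | X.hor y} (fun _ _ => hor_sp F) hf0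
    fun y hy h a ha => (hG1 y (by omega) hy a).2 ((hK1 y (by omega) _).1 ha)
  let G : X.GC N (π ^ n) d :=
    { toCous := CG
      g := fun y => (e y).comp (f y)
      g_mem := fun y hy a => ((e2 y hy).2 _).2 ⟨_, rfl⟩
      g_ι := fun w y h1 h2 h3 a => by
        rw [AddMonoidHom.comp_apply, hf, e3 w y h1 h2 h3, AddMonoidHom.comp_apply]
      g_inj := fun y hy => (e2 y (hor_one hy)).1.comp (bij y hy).1
      g_surj := fun y hy c hc => by
        obtain ⟨a, rfl⟩ := ((e2 y (hor_one hy)).2 c).1 hc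
        obtain ⟨b, rfl⟩ := (bij y hy).2 a
        exact ⟨b, rfl⟩
      ker := fun y hy h a => by rw [AddMonoidHom.comp_apply, e1, hG2 y h hy] }
  have s1 := s1_stmt (cont_stmt (cont0_stmt par_stmt)) A π hπ X F hReg d hη hδ N hN n hn G
  refine ⟨top CG X.hor hclo fun x hx => s1 x fun h => by have := hor_one h; omega, e4, e5,
    fun α a1 a2 a3 => ?_⟩
  obtain ⟨β, b1, b2, b3⟩ := rat F hN CK e
    (fun y hy c hc => ((e2 y (by omega)).2 c).1 (by rwa [hy])) e3
    (a_stmt ac_stmt nl_stmt A π hπ X F hclo d hη hδ N hN hG m n hm bx hn' G s1 α a1 a2 a3)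
  refine ⟨β, b1, b2, fun y => ?_⟩
  by_cases hy : X.δ y = 1
  · refine (e2 y hy.ge).1 ?_
    rw [b3 y hy, if_pos hy]
    have := G.g_mem y hy.ge (α y)
    rw [hy] at this
    exact eq_kdeg_of_mem_zero this
  · rw [not_not.1 fun h => hy (a2 y h), map_zero]
    refine (finsum_eq_zero_of_forall_eq_zero fun W => ?_).symm
    by_contra h
    have := (CK.supp W y _ h).2
    have := b2 W fun h' => h (by rw [h', map_zero])
    omega

open _root_.Pool.Agent.MP_682409_ag.Fin in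
theorem key (A : CommRingCat.{0}) [IsDomain A] [IsDiscreteValuationRing A]
    [HenselianLocalRing A] (π : A) (hπ : Irreducible π) (X : Scheme.{0}) (p : X ⟶ Spec A)
    (d m : ℕ) (hreg : ∀ x : X, IsRegularLocalRing (X.presheaf.stalk x)) (hfl : Flat p)
    (hpr : IsProj p) (hint : IsIntegral (XK p)) (hsm : GenSm p d) (N : NormFam.{0})
    (hN : IsNorm N) (hG : ∀ x : X, Gersten N d x) (hm : 1 ≤ m)
    (hb : ∀ D : FrData p, D.fr.Facts → D.fr.BB π m) (n : ℕ) (hn : 1 ≤ n) (hn' : m + 2 * d ≤ n) :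
    Function.Bijective (Sheaf.H.map (rho (thick p n) d) d) := by
  obtain ⟨hX, hXN, D, hhor⟩ := br1_stmt A X p hfl hpr hint
  have F := facts_stmt df_stmt A D.fr
  have hδ := br3_stmt A X p D F hhor d hsm
  obtain ⟨hR, hFG⟩ := br2_stmt A X p D F d hδ
  have H := alg A π hπ D.fr (hR hreg) d hhor hδ m hm (hb D F) N hN (hFG N hG) n hn hn'
  obtain ⟨k, hk, hs, hρ⟩ := br5_stmt A π hπ X p d
  have := (hρ n).1
  obtain ⟨CG, CK, f, bG, bK, hf, hb, hCG, hCK, hT, hZ⟩ := sheaf_stmt X D.fr.δ d D.η D.gen hδ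
    (fun _ _ => F.strict) _ _ (kernel.ι (rho (thick p n) d))
  have hu : ∀ y, D.fr.hor y → ∀ c, stkMap (T := X) (rho (thick p n) d) y c = 0 :=
    fun y hy c => ((hρ n).2 y c).2 (Or.inl (((unit_iff p hπ y).2 hy).pow n))
  have hRK : ∀ y b, b ∈ (stkSp (T := X) (Ksh X d) (D.gen y)).range ↔
      E k D.η b ∈ D.fr.RK d y := fun y b => by
    have := E_loc k D.gen hk hs y b fun _ => True
    simp only [and_true] at this
    exact this
  obtain ⟨a1, a2, a3, a4⟩ := H CG CK f ((E k D.η).comp bK.toAddMonoidHom) hf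
    ⟨fun a a' e => bG.injective (stk_inj (kernel.ι (rho (thick p n) d)) D.η
      ((hb a).symm.trans ((congrArg bK e).trans (hb a')))), fun b => by
      obtain ⟨g, hg⟩ := (stk_ker _ _ _).1 (hu D.η hhor (bK b))
      exact ⟨bG.symm g, bK.injective ((hb _).trans
        ((congrArg _ (bG.apply_symm_apply g)).trans hg))⟩⟩
    ((E_inj k D.gen hk).comp bK.injective)
    (fun c => (E_range k D.gen hk c).trans ⟨fun ⟨a, e⟩ => ⟨bK.symm a,
      (congrArg (E k D.η) (bK.apply_symm_apply a)).trans e⟩, fun ⟨a, e⟩ => ⟨bK a, e⟩⟩)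
    (fun y hy a => (hCK y hy a).trans (hRK y _))
    (fun y hy h a => (hCG y hy a).trans ((ker_range _ _ _).trans (by
      rw [← hb]
      exact ⟨fun ⟨c, e, _⟩ => (hRK y _).1 ⟨c, e⟩,
        fun e => let ⟨c, e⟩ := (hRK y _).2 e; ⟨c, e, hu y h c⟩⟩)))
    (fun y hy h a => (hCG y hy a).trans ((ker_range _ _ _).trans (by
      rw [← hb]
      refine Iff.trans (exists_congr fun c => and_congr_right fun _ => ?_)
        (E_loc k D.gen hk hs y _ fun s => kmap (Ideal.Quotient.mk (Ideal.span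
          {a : src (Gr D.η y) | (a : X.residueField D.η) = sK p D.η (π ^ n)})) s = 0)
      rw [(hρ n).2, set_eq D.gen, kmap_quot _ (toO_bij D.gen y), map_pow]
      exact or_iff_right fun hu => h ((unit_iff p hπ y).1
        ((isUnit_pow_iff (by omega)).1 hu)))))
  exact ⟨H_inj _ d (hZ
    (fun x hx => sp_inj k D.gen hk hs x (((hFG N hG) x).2 (hx.imp_right (by omega))).1)
    (fun x hx a ha => (hRK x _).2 (a2 x hx a ha)) a3 a4), H_surj _ d (hT a1)⟩

open HatTr in
theorem tr (b : Bool) (A : CommRingCat.{0}) [IsDomain A] [IsDiscreteValuationRing A]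
    (X : Scheme.{0}) (p : X ⟶ Spec A) (d : ℕ) (hfl : Flat p) (hpr : IsProj p)
    (hint : IsIntegral (XK p)) (n : ℕ)
    (H : Function.Bijective (Sheaf.H.map (rho (thick p n) d) d)) :
    Function.Bijective (Sheaf.H.map (Frho (KB b d) (thick p n)) d) := by
  obtain ⟨hX, hXN, D, -⟩ := br1_stmt A X p hfl hpr hint
  have F := facts_stmt df_stmt A D.fr
  have hinf : ∀ x : X, 1 ≤ D.fr.δ x ∨ d ≤ 1 → Infinite (X.residueField x) ∨ d ≤ 1 :=
    fun x hx => hx.imp_left fun hx => infinite_of_one_le_dl (f := sK p x) hx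
  have hΦ : Function.Bijective (Sheaf.H.map (Fphi (toKB b d) X) d) :=
    hcmp_stmt X D.fr.δ (fun _ _ => F.strict) _ _ _ d fun x hx =>
      stalk khinf_stmt khlow_stmt khstk_stmt b d X x (hinf x hx)
  have hΦn : Function.Bijective (Sheaf.H.map (Fphp (toKB b d) (thick p n)) d) :=
    hcmp_stmt X D.fr.δ (fun _ _ => F.strict) _ _ _ d fun x hx => by
      have : IsClosedImmersion
          (Spec.map (CommRingCat.ofHom (Ideal.Quotient.mk (maximalIdeal A ^ n)))) :=
        IsClosedImmersion.spec_of_surjective _ Ideal.Quotient.mk_surjective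
      refine (fnat_stmt _ _ (toKB b d) _ X (thick p n)).2.2
        (inferInstanceAs (IsClosedImmersion (pullback.fst _ _))) x ?_
      rintro y rfl
      refine stalk khinf_stmt khlow_stmt khstk_stmt b d _ y ((hinf _ hx).imp_left fun hx => ?_)
      exact @Infinite.of_injective _ _ hx _ ((thick p n).residueFieldMap y).hom.injective
  have hsq : ∀ ξ, Sheaf.H.map (Fphp (toKB b d) (thick p n)) d
      (Sheaf.H.map (rho (thick p n) d) d ξ) =
      Sheaf.H.map (Frho (KB b d) (thick p n)) d (Sheaf.H.map (Fphi (toKB b d) X) d ξ) :=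
    fun ξ => (Sheaf.H.map_comp_apply _ _ _).symm.trans ((congrArg (fun φ => Sheaf.H.map φ d ξ)
      (fnat_stmt _ _ (toKB b d) _ X (thick p n)).1).trans (Sheaf.H.map_comp_apply _ _ _))
  refine ⟨fun ξ ξ' e => ?_, fun a => ?_⟩
  · obtain ⟨ζ, rfl⟩ := hΦ.2 ξ
    obtain ⟨ζ', rfl⟩ := hΦ.2 ξ'
    exact congrArg _ (H.1 (hΦn.1 ((hsq ζ).trans (e.trans (hsq ζ').symm))))
  · obtain ⟨c, rfl⟩ := hΦn.2 a
    obtain ⟨ζ, rfl⟩ := H.2 c
    exact ⟨_, (hsq ζ).symm⟩

theorem lit (F : CommRingCat.{0} ⥤ AddCommGrpCat.{0}) {A : CommRingCat.{0}} [IsLocalRing A]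
    {X : Scheme.{0}} (p : X ⟶ Spec A) (d n : ℕ)
    (h : Function.Bijective (Sheaf.H.map (Frho F (thick p (n + 1))) d)) :
    Function.Bijective (Q.Hres F (Q.inc p (Q.mp A n)) d) := by
  have hc : Fact (Topology.IsClosedEmbedding (thick p (n + 1)).base) := by
    have : IsClosedImmersion (Spec.map (CommRingCat.ofHom
        (Ideal.Quotient.mk (maximalIdeal A ^ (n + 1))))) :=
      IsClosedImmersion.spec_of_surjective _ Ideal.Quotient.mk_surjective
    have : IsClosedImmersion (thick p (n + 1)) := MorphismProperty.pullback_fst _ _ this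
    exact ⟨(thick p (n + 1)).isClosedEmbedding⟩
  have h1 : (Q.Hres F (thick p (n + 1)) d : _ → _) =
      Lit.cmp (thick p (n + 1)).base (Fsh F _) d ∘ Sheaf.H.map (Frho F (thick p (n + 1))) d :=
    funext fun ξ => Lit.hres_cmp F (thick p (n + 1)) d ξ
  have h2 : Function.Bijective (Q.Hres F (thick p (n + 1)) d) := by
    rw [h1]
    exact (Equiv.bijective _).comp h
  exact h2

end FinX

theorem sFin : SFin := by
  intro b A _ _ _ π hπ X p d m hreg hfl hpr hint hsm hG hm hb n hn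
  rw [Lit.kb_eq]
  exact FinX.lit _ p d n (FinX.tr b A X p d hfl hpr hint (n + 1)
    (FinX.key A π hπ X p d m hreg hfl hpr hint hsm Nm isNorm_Nm
      (fun x => gersten_of_B (Lit.ger_eq b d x ▸ hG x)) hm hb (n + 1) (by omega) hn))

end

end Pool.Agent.MP_682409_ag.Tor

end

section

/-! The end of the proof, from the dimension of the frame. -/

namespace Pool.Agent.MP_682409_ag.Tor

open IsLocalRing Polynomial CategoryTheory Limits AlgebraicGeometry

noncomputable section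

namespace FinX

open _root_.Pool.Agent.MP_682409_ag.Fin in
theorem key' (A : CommRingCat.{0}) [IsDomain A] [IsDiscreteValuationRing A]
    [HenselianLocalRing A] (π : A) (hπ : Irreducible π) (X : Scheme.{0}) (p : X ⟶ Spec A)
    (d m : ℕ) (hreg : ∀ x : X, IsRegularLocalRing (X.presheaf.stalk x)) (hfl : Flat p)
    (hpr : IsProj p) (hint : IsIntegral (XK p))
    (hsm : ∀ [IsIntegral X] (D : FrData p), D.fr.Facts → D.fr.hor D.η → D.fr.δ D.η = d + 1)
    (N : NormFam.{0})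
    (hN : IsNorm N) (hG : ∀ x : X, Gersten N d x) (hm : 1 ≤ m)
    (hb : ∀ D : FrData p, D.fr.Facts → D.fr.BB π m) (n : ℕ) (hn : 1 ≤ n) (hn' : m + 2 * d ≤ n) :
    Function.Bijective (Sheaf.H.map (rho (thick p n) d) d) := by
  obtain ⟨hX, hXN, D, hhor⟩ := br1_stmt A X p hfl hpr hint
  have F := facts_stmt df_stmt A D.fr
  have hδ := hsm D F hhor
  obtain ⟨hR, hFG⟩ := br2_stmt A X p D F d hδ
  have H := alg A π hπ D.fr (hR hreg) d hhor hδ m hm (hb D F) N hN (hFG N hG) n hn hn'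
  obtain ⟨k, hk, hs, hρ⟩ := br5_stmt A π hπ X p d
  have := (hρ n).1
  obtain ⟨CG, CK, f, bG, bK, hf, hb, hCG, hCK, hT, hZ⟩ := sheaf_stmt X D.fr.δ d D.η D.gen hδ
    (fun _ _ => F.strict) _ _ (kernel.ι (rho (thick p n) d))
  have hu : ∀ y, D.fr.hor y → ∀ c, stkMap (T := X) (rho (thick p n) d) y c = 0 :=
    fun y hy c => ((hρ n).2 y c).2 (Or.inl (((unit_iff p hπ y).2 hy).pow n))
  have hRK : ∀ y b, b ∈ (stkSp (T := X) (Ksh X d) (D.gen y)).range ↔
      E k D.η b ∈ D.fr.RK d y := fun y b => by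
    have := E_loc k D.gen hk hs y b fun _ => True
    simp only [and_true] at this
    exact this
  obtain ⟨a1, a2, a3, a4⟩ := H CG CK f ((E k D.η).comp bK.toAddMonoidHom) hf
    ⟨fun a a' e => bG.injective (stk_inj (kernel.ι (rho (thick p n) d)) D.η
      ((hb a).symm.trans ((congrArg bK e).trans (hb a')))), fun b => by
      obtain ⟨g, hg⟩ := (stk_ker _ _ _).1 (hu D.η hhor (bK b))
      exact ⟨bG.symm g, bK.injective ((hb _).trans
        ((congrArg _ (bG.apply_symm_apply g)).trans hg))⟩⟩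
    ((E_inj k D.gen hk).comp bK.injective)
    (fun c => (E_range k D.gen hk c).trans ⟨fun ⟨a, e⟩ => ⟨bK.symm a,
      (congrArg (E k D.η) (bK.apply_symm_apply a)).trans e⟩, fun ⟨a, e⟩ => ⟨bK a, e⟩⟩)
    (fun y hy a => (hCK y hy a).trans (hRK y _))
    (fun y hy h a => (hCG y hy a).trans ((ker_range _ _ _).trans (by
      rw [← hb]
      exact ⟨fun ⟨c, e, _⟩ => (hRK y _).1 ⟨c, e⟩,
        fun e => let ⟨c, e⟩ := (hRK y _).2 e; ⟨c, e, hu y h c⟩⟩)))
    (fun y hy h a => (hCG y hy a).trans ((ker_range _ _ _).trans (by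
      rw [← hb]
      refine Iff.trans (exists_congr fun c => and_congr_right fun _ => ?_)
        (E_loc k D.gen hk hs y _ fun s => kmap (Ideal.Quotient.mk (Ideal.span
          {a : src (Gr D.η y) | (a : X.residueField D.η) = sK p D.η (π ^ n)})) s = 0)
      rw [(hρ n).2, set_eq D.gen, kmap_quot _ (toO_bij D.gen y), map_pow]
      exact or_iff_right fun hu => h ((unit_iff p hπ y).1
        ((isUnit_pow_iff (by omega)).1 hu)))))
  exact ⟨H_inj _ d (hZ
    (fun x hx => sp_inj k D.gen hk hs x (((hFG N hG) x).2 (hx.imp_right (by omega))).1)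
    (fun x hx a ha => (hRK x _).2 (a2 x hx a ha)) a3 a4), H_surj _ d (hT a1)⟩

end FinX

theorem sFin' (b : Bool) (A : CommRingCat.{0}) [IsDomain A] [IsDiscreteValuationRing A]
    [HenselianLocalRing A] (π : A) (hπ : Irreducible π) (X : Scheme.{0}) (p : X ⟶ Spec A)
    (d m : ℕ) (hreg : ∀ x : X, IsRegularLocalRing (X.presheaf.stalk x)) (hfl : Flat p)
    (hpr : IsProj p) (hint : IsIntegral (XK p))
    (hsm : ∀ [IsIntegral X] (D : FrData p), D.fr.Facts → D.fr.hor D.η → D.fr.δ D.η = d + 1)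
    (hG : ∀ x : X, Q.Gersten b d x) (hm : 1 ≤ m)
    (hb : ∀ D : FrData p, D.fr.Facts → D.fr.BB π m) (n : ℕ) (hn : m + 2 * d ≤ n + 1) :
    Function.Bijective (Q.Hres (Q.KB b d) (Q.inc p (Q.mp A n)) d) := by
  rw [Lit.kb_eq]
  exact FinX.lit _ p d n (FinX.tr b A X p d hfl hpr hint (n + 1)
    (FinX.key' A π hπ X p d m hreg hfl hpr hint hsm Nm isNorm_Nm
      (fun x => gersten_of_B (Lit.ger_eq b d x ▸ hG x)) hm hb (n + 1) (by omega) hn))

end

end Pool.Agent.MP_682409_ag.Tor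

end
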