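import Pool.Agent.Mg.F682409.Gf29adc
import Pool.Agent.Mg.F53d700.Gbdc705

set_option linter.all false

section

/-! The algebraic core of the divisibility lemma. -/

namespace Pool.Agent.MP_682409_ag.Tor

open IsLocalRing Polynomial TensorProduct

namespace CoreX

theorem base {A S Λ : Type} [CommRing A] [CommRing S] [CommRing Λ] [Algebra A[X] S] {q : ℕ}
    (β : Module.Basis (Fin q) A[X] S) (φ : A →+* Λ) :
    ∃ (T : Type) (_ : CommRing T) (_ : Algebra Λ[X] T) (β' : Module.Basis (Fin q) Λ[X] T)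
      (i₁ : S →+* T), (∀ a, i₁ (algebraMap A[X] S a) = algebraMap Λ[X] T (a.map φ)) ∧
      (∀ i, i₁ (β i) = β' i) ∧ ∀ ψ : Λ →+* A, (∀ a, ψ (φ a) = a) → ∃ ev : T →+* S,
        (∀ r, ev (algebraMap Λ[X] T r) = algebraMap A[X] S (r.map ψ)) ∧ ∀ s, ev (i₁ s) = s := by
  let _ : Algebra A[X] Λ[X] := (mapRingHom φ).toAlgebra
  refine ⟨Λ[X] ⊗[A[X]] S, inferInstance, inferInstance, β.baseChange Λ[X],
    Algebra.TensorProduct.includeRight.toRingHom, fun a => ?_, fun i => ?_, fun ψ hψ => ?_⟩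
  · change (1 : Λ[X]) ⊗ₜ[A[X]] (algebraMap A[X] S a) = (algebraMap A[X] Λ[X] a) ⊗ₜ[A[X]] (1 : S)
    rw [Algebra.algebraMap_eq_smul_one, Algebra.algebraMap_eq_smul_one, smul_tmul]
  · exact (Module.Basis.baseChange_apply Λ[X] β i).symm
  · let e : Λ[X] →ₐ[A[X]] S :=
      { (algebraMap A[X] S).comp (mapRingHom ψ) with
        commutes' := fun a => by
          change algebraMap A[X] S ((a.map φ).map ψ) = _
          rw [Polynomial.map_map, show ψ.comp φ = RingHom.id A from RingHom.ext hψ,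
            Polynomial.map_id] }
    refine ⟨(Algebra.TensorProduct.productMap e (AlgHom.id A[X] S)).toRingHom, fun r => ?_,
      fun s => ?_⟩
    · change Algebra.TensorProduct.productMap e (AlgHom.id A[X] S) (r ⊗ₜ 1) = _
      rw [Algebra.TensorProduct.productMap_apply_tmul, map_one, mul_one]
      rfl
    · change Algebra.TensorProduct.productMap e (AlgHom.id A[X] S) (1 ⊗ₜ s) = _
      rw [Algebra.TensorProduct.productMap_apply_tmul, map_one, one_mul]
      rfl

theorem inv_mod {A : Type} [CommRing A] {c : A[X]} (hc : IsUnit (c.coeff 0)) (d j : ℕ) :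
    ∃ n : A[X], n.degree < d ∧ X ^ d ∣ c * n + X ^ j := by
  nontriviality A
  obtain ⟨u, hu⟩ := hc
  have h1 : IsCoprime c X := ⟨C ((u⁻¹ : Aˣ) : A), -(C ((u⁻¹ : Aˣ) : A) * c.divX), by
    have := divX_mul_X_add c
    rw [← hu] at this
    have e : C ((u⁻¹ : Aˣ) : A) * C (u : A) = 1 := by rw [← C_mul, Units.inv_mul, C_1]
    linear_combination e - C ((u⁻¹ : Aˣ) : A) * this⟩
  obtain ⟨a, b, hab⟩ := h1.pow_right (n := d)
  have hm : (X ^ d : A[X]).Monic := monic_X_pow d
  refine ⟨(-a * X ^ j) %ₘ X ^ d, ?_, ?_⟩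
  · have := degree_modByMonic_lt (-a * X ^ j) hm
    rwa [degree_X_pow] at this
  · have := modByMonic_add_div (-a * X ^ j) (X ^ d)
    exact ⟨b * X ^ j - c * ((-a * X ^ j) /ₘ X ^ d), by
      linear_combination c * this - X ^ j * hab⟩

theorem coeff_mem {Λ : Type} [CommRing Λ] {I : Ideal Λ} {d j : ℕ} (hj : j < d) {r : Λ[X]}
    (h : r ∈ I.map C ⊔ Ideal.span {X ^ d}) : r.coeff j ∈ I := by
  obtain ⟨a, ha, b, hb, rfl⟩ := Submodule.mem_sup.1 h
  rw [coeff_add, X_pow_dvd_iff.1 (Ideal.mem_span_singleton.1 hb) j hj, add_zero]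
  exact Ideal.mem_map_C_iff.1 ha j

theorem unit_add {A : Type} [CommRing A] [IsLocalRing A] {π c : A} (hπ : Irreducible π)
    (hc : IsUnit c) (a : A) : IsUnit (c + π * a) := by
  by_contra h
  have h1 : π * a ∈ maximalIdeal A := Ideal.mul_mem_right _ _ hπ.not_isUnit
  have h2 := Ideal.sub_mem _ (show c + π * a ∈ maximalIdeal A from h) h1
  rw [add_sub_cancel_right] at h2
  exact h2 hc

theorem pi_mem {A : Type} [CommRing A] (π : A) (ι : Type) : MvPolynomial.C π ∈ mm π ι :=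
  Ideal.subset_span (Set.mem_insert _ _)

theorem x_mem {A : Type} [CommRing A] (π : A) {ι : Type} (γ : ι) :
    MvPolynomial.X γ ∈ mm π ι :=
  Ideal.subset_span (Set.mem_insert_of_mem _ ⟨γ, rfl⟩)

end CoreX

open CoreX in
theorem sCore (hW : SWH) (hN : SNm) : SCore := by
  intro A _ _ _ _ π hπ S _ _ q β N v k N₀ c s₁ W hN₀ hNv hc hWs hdec
  classical
  obtain ⟨n₀, rfl⟩ := hN₀
  set d := k * N * q with hd
  choose u hu b y y' he using fun γ : Fin q × Fin d => hdec ((X ^ (γ.2 : ℕ) : A[X]) • β γ.1)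
  have hcq : IsUnit ((c ^ (N * q)).coeff 0) := by
    rw [← constantCoeff_apply, map_pow]
    exact hc.pow _
  choose nn hn1 hn2 using fun j : Fin d => inv_mod hcq d j
  obtain ⟨T, _, _, β', i₁, h1, h2, h3⟩ :=
    base β (MvPolynomial.C : A →+* MvPolynomial (Option (Fin q) × Fin d) A)
  obtain ⟨n1, n2, n3⟩ := hN _ T q β'
  let Λ := MvPolynomial (Option (Fin q) × Fin d) A
  let Z : Fin q × Fin d → Λ[X] := fun γ => C (MvPolynomial.X (some γ.1, γ.2))
  let al : Λ[X] →+* T := algebraMap Λ[X] T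
  let a₀ : A[X] →+* S := algebraMap A[X] S
  obtain ⟨U, hU⟩ : ∃ U : T, U = ∑ γ, al (Z γ) * i₁ (u γ) := ⟨_, rfl⟩
  obtain ⟨B, hB⟩ : ∃ B : T, B = ∑ γ, al (Z γ) * i₁ (-(a₀ (C ((n₀⁻¹ : Aˣ) : A)) * b γ)) := ⟨_, rfl⟩
  obtain ⟨p, hp⟩ : ∃ p : T, p = i₁ (a₀ (C π)) := ⟨_, rfl⟩
  obtain ⟨g, hg⟩ : ∃ g : T, g = i₁ (a₀ (c * X ^ k)) := ⟨_, rfl⟩
  obtain ⟨K, hK⟩ := powAddExpansion g (p ^ v * B) N
  obtain ⟨E, hE⟩ : ∃ E : T,
    E = p * i₁ s₁ + U - i₁ (a₀ (C (n₀ : A))) * g ^ (N - 1) * B - K * B ^ 2 := ⟨_, rfl⟩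
  obtain ⟨G, hG⟩ : ∃ G : T, G = g ^ N + p ^ (2 * v + 1) * i₁ s₁ + p ^ (2 * v) * U := ⟨_, rfl⟩
  have hNT : (N : T) = p ^ v * i₁ (a₀ (C (n₀ : A))) := by
    rw [hp, ← map_pow, ← map_pow, ← map_mul, ← map_mul, ← C_pow, ← C_mul, ← hNv, map_natCast,
      map_natCast, map_natCast]
  have hGE : G - (g + p ^ v * B) ^ N = p ^ (2 * v) * E := by
    rw [hK, hG, hE, hNT]; ring
  have hp' : p = al (C (MvPolynomial.C π)) := by rw [hp, h1, map_C]
  obtain ⟨δ, hδ⟩ : ∃ δ : Λ[X],
    δ = ∑ j : Fin d, C (MvPolynomial.X (none, j)) * (nn j).map MvPolynomial.C := ⟨_, rfl⟩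
  have hδd : δ.degree < d := by
    rw [hδ, ← mem_degreeLT]
    refine sum_mem fun j _ => ?_
    rw [← smul_eq_C_mul]
    exact Submodule.smul_mem _ _ (mem_degreeLT.2 (degree_map_le.trans_lt (hn1 j)))
  have hνm : (X ^ d + δ).Monic := monic_X_pow_add hδd
  have hνd : (X ^ d + δ).natDegree = d := by
    rw [natDegree_add_eq_left_of_degree_lt (by rwa [degree_X_pow]), natDegree_X_pow]
  let x : Option (Fin q) → Λ[X] := fun o => o.elim
    (Algebra.norm Λ[X] G - (c ^ (N * q)).map MvPolynomial.C * (X ^ d + δ)) fun i => β'.repr E i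
  -- ideals
  have mem : ∀ (I : Ideal Λ) (a : Λ), a ∈ I → al (C a) ∈ (I.map C).map al := fun I a ha =>
    Ideal.mem_map_of_mem _ (Ideal.mem_map_of_mem _ ha)
  have sm : ∀ (I : Ideal Λ), (∀ γ : Fin q × Fin d, MvPolynomial.X (some γ.1, γ.2) ∈ I) →
      ∀ w : Fin q × Fin d → T, ∑ γ, al (Z γ) * w γ ∈ (I.map C).map al := fun I hI w =>
    sum_mem fun γ _ => Ideal.mul_mem_right _ _ (mem I _ (hI γ))
  have hnorm : ∀ I : Ideal Λ, MvPolynomial.C π ∈ I →
      (∀ γ : Fin q × Fin d, MvPolynomial.X (some γ.1, γ.2) ∈ I) → ∀ n,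
      (x none).coeff n + ((c ^ (N * q)).map MvPolynomial.C * δ).coeff n ∈ I := fun I h0 hI n => by
    have e1 := n3 (I.map C) G (((c * X ^ k) ^ N).map MvPolynomial.C) (by
      rw [← h1, map_pow, map_pow, ← hg, hG, add_assoc, add_sub_cancel_left, pow_succ, mul_assoc]
      exact add_mem (Ideal.mul_mem_left _ _ (Ideal.mul_mem_right _ _ (hp' ▸ mem I _ h0)))
        (Ideal.mul_mem_left _ _ (hU ▸ sm I hI _)))
    have e2 := Ideal.mem_map_C_iff.1 e1 n
    have e3 : x none + (c ^ (N * q)).map MvPolynomial.C * δ =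
        Algebra.norm Λ[X] G - (((c * X ^ k) ^ N).map MvPolynomial.C) ^ q := by
      simp only [x, Option.elim, Polynomial.map_pow, Polynomial.map_mul, map_X, hd]
      ring
    rw [← coeff_add, e3]
    exact e2
  have hδm : ∀ n, δ.coeff n ∈ mm π (Option (Fin q) × Fin d) := fun n => by
    rw [hδ, finsetSum_coeff]
    exact sum_mem fun j _ => by rw [coeff_C_mul]; exact Ideal.mul_mem_right _ _ (x_mem π _)
  have hBm : B ∈ ((mm π (Option (Fin q) × Fin d)).map C).map al :=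
    hB ▸ sm _ (fun γ => x_mem π _) _
  let J : Ideal Λ := Ideal.span {MvPolynomial.C π} ⊔
    Ideal.span (Set.range fun γ : Option (Fin q) × Fin d => (x γ.1).coeff γ.2) ⊔
    mm π (Option (Fin q) × Fin d) ^ 2
  have hJx : ∀ γ : Option (Fin q) × Fin d, (x γ.1).coeff γ.2 ∈ J := fun γ =>
    Ideal.mem_sup_left (Ideal.mem_sup_right (Ideal.subset_span ⟨γ, rfl⟩))
  have hJp : MvPolynomial.C π ∈ J :=
    Ideal.mem_sup_left (Ideal.mem_sup_left (Ideal.mem_span_singleton_self _))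
  have hJ1 : ∀ γ : Fin q × Fin d, MvPolynomial.X (some γ.1, γ.2) ∈ J := fun γ => by
    have e0 : ∀ γ : Fin q × Fin d, i₁ (u γ) - i₁ (a₀ (C (n₀ : A))) * g ^ (N - 1) *
        i₁ (-(a₀ (C ((n₀⁻¹ : Aˣ) : A)) * b γ)) =
        al (X ^ (γ.2 : ℕ)) * β' γ.1 - p * i₁ (y γ) - al (X ^ d) * i₁ (y' γ) := fun γ => by
      have e1 := congrArg i₁ (he γ)
      have e2 : i₁ (a₀ (C (n₀ : A))) * i₁ (a₀ (C ((n₀⁻¹ : Aˣ) : A))) = 1 := by
        rw [← map_mul, ← map_mul, ← C_mul, Units.mul_inv, C_1, map_one, map_one]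
      have e3 : ∀ j : ℕ, i₁ (a₀ (X ^ j)) = al (X ^ j) := fun j => by
        rw [h1, Polynomial.map_pow, map_X]
      rw [Algebra.smul_def] at e1
      simp only [map_add, map_mul i₁, map_pow i₁] at e1
      rw [h2, ← hg, ← hp, e3, e3] at e1
      rw [map_neg, map_mul]
      linear_combination (-1 : T) * e1 + g ^ (N - 1) * i₁ (b γ) * e2
    have e1 : E - ∑ γ' : Fin q × Fin d, (Z γ' * X ^ (γ'.2 : ℕ)) • β' γ'.1 =
        p * (i₁ s₁ - ∑ γ', al (Z γ') * i₁ (y γ')) - al (X ^ d) * (∑ γ', al (Z γ') * i₁ (y' γ')) -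
          K * (B * B) := by
      have e2 : U - i₁ (a₀ (C (n₀ : A))) * g ^ (N - 1) * B =
          ∑ γ' : Fin q × Fin d, (Z γ' * X ^ (γ'.2 : ℕ)) • β' γ'.1 -
            p * ∑ γ', al (Z γ') * i₁ (y γ') - al (X ^ d) * ∑ γ', al (Z γ') * i₁ (y' γ') := by
        rw [hU, hB, Finset.mul_sum, Finset.mul_sum, Finset.mul_sum, ← Finset.sum_sub_distrib,
          ← Finset.sum_sub_distrib, ← Finset.sum_sub_distrib]
        refine Finset.sum_congr rfl fun γ' _ => ?_
        rw [Algebra.smul_def, map_mul]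
        linear_combination al (Z γ') * e0 γ'
      rw [hE]
      linear_combination e2
    have e2 : E - ∑ γ' : Fin q × Fin d, (Z γ' * X ^ (γ'.2 : ℕ)) • β' γ'.1 ∈
        (J.map C ⊔ Ideal.span {X ^ d}).map al := by
      rw [e1, Ideal.map_sup]
      refine sub_mem (sub_mem (Ideal.mem_sup_left (Ideal.mul_mem_right _ _ (hp' ▸ mem J _ hJp)))
        (Ideal.mem_sup_right (Ideal.mul_mem_right _ _ (Ideal.mem_map_of_mem _
          (Ideal.mem_span_singleton_self _))))) (Ideal.mem_sup_left (Ideal.mul_mem_left _ _ ?_))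
      have e3 := Ideal.mul_mem_mul hBm hBm
      rw [← Ideal.map_mul, ← Ideal.map_mul, ← pow_two] at e3
      exact Ideal.map_mono (Ideal.map_mono le_sup_right) e3
    have e3 := coeff_mem γ.2.2 (n2 _ _ e2 γ.1)
    have e4 : (β'.repr (∑ γ' : Fin q × Fin d, (Z γ' * X ^ (γ'.2 : ℕ)) • β' γ'.1) γ.1).coeff γ.2 =
        MvPolynomial.X (some γ.1, γ.2) := by
      rw [map_sum, Finsupp.finsetSum_apply, finsetSum_coeff, Finset.sum_eq_single γ]
      · simp [Z]
      · intro γ' _ hne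
        rw [map_smul, Module.Basis.repr_self, Finsupp.smul_apply, Finsupp.single_apply]
        split_ifs with h
        · rw [smul_eq_mul, mul_one, coeff_C_mul, coeff_X_pow, if_neg, mul_zero]
          exact fun e => hne (Prod.ext h (Fin.ext e.symm))
        · simp
      · simp
    rw [map_sub, Finsupp.sub_apply, coeff_sub, e4] at e3
    simpa [x] using sub_mem (hJx (some γ.1, γ.2)) e3
  obtain ⟨z, hz, hQ⟩ := hW A π hπ (Option (Fin q)) d x (X ^ d + δ) hνm hνd
    (fun n => by rw [add_sub_cancel_left]; exact hδm n)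
    (fun o n => by
      rcases o with _ | i
      · have e1 := hnorm _ (pi_mem π _) (fun γ => x_mem π _) n
        refine (Ideal.add_mem_iff_left _ ?_).1 e1
        rw [coeff_mul]
        exact sum_mem fun m _ => Ideal.mul_mem_left _ _ (hδm _)
      · refine Ideal.mem_map_C_iff.1 (n2 _ _ ?_ i) n
        rw [hE, pow_two, ← mul_assoc]
        exact sub_mem (sub_mem (add_mem (Ideal.mul_mem_right _ _ (hp' ▸ mem _ _ (pi_mem π _)))
          (hU ▸ sm _ (fun γ => x_mem π _) _)) (Ideal.mul_mem_left _ _ hBm))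
          (Ideal.mul_mem_left _ _ hBm))
    (by
      rintro ⟨_ | i, j⟩
      · have e1 := sub_mem (hJx (none, j)) (hnorm J hJp hJ1 j)
        have e2 : ((c ^ (N * q)).map MvPolynomial.C * δ).coeff j =
            -(MvPolynomial.X (none, j) : Λ) := by
          rw [hδ, Finset.mul_sum, finsetSum_coeff, Finset.sum_eq_single j]
          · rw [mul_left_comm, coeff_C_mul, ← Polynomial.map_mul, coeff_map]
            have := X_pow_dvd_iff.1 (hn2 j) j j.2
            rw [coeff_add, coeff_X_pow, if_pos rfl, add_eq_zero_iff_eq_neg] at this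
            rw [this, map_neg, map_one, mul_neg, mul_one]
          · intro j' _ hne
            rw [mul_left_comm, coeff_C_mul, ← Polynomial.map_mul, coeff_map]
            have := X_pow_dvd_iff.1 (hn2 j') j j.2
            rw [coeff_add, coeff_X_pow, if_neg fun e => hne (Fin.ext e.symm), add_zero] at this
            rw [this, map_zero, mul_zero]
          · simp
        rw [e2, sub_add_cancel_left, neg_neg] at e1
        exact e1
      · exact hJ1 (i, j))
  choose z' hz' using hz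
  choose Q hQ using hQ
  obtain ⟨ev, v1, v2⟩ := h3 (MvPolynomial.eval z) fun a => MvPolynomial.eval_C a
  have vs : ∀ w : Fin q × Fin d → S, ev (∑ γ, al (Z γ) * i₁ (w γ)) =
      a₀ (C π) * ∑ γ : Fin q × Fin d, a₀ (C (z' (some γ.1, γ.2))) * w γ := fun w => by
    rw [map_sum, Finset.mul_sum]
    refine Finset.sum_congr rfl fun γ _ => ?_
    rw [map_mul, v1, v2, map_C, MvPolynomial.eval_X, hz', C_mul, map_mul, mul_assoc]
  obtain ⟨G', hG'⟩ := n1 G
  have vE : ev E = a₀ ((X ^ d + δ).map (MvPolynomial.eval z)) *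
      (a₀ (C π) * ∑ i, a₀ (Q (some i)) * β i) := by
    rw [← β'.sum_repr E, map_sum, Finset.mul_sum, Finset.mul_sum]
    refine Finset.sum_congr rfl fun i _ => ?_
    rw [Algebra.smul_def, map_mul, v1, ← h2, v2, show β'.repr E i = x (some i) from rfl, hQ,
      map_mul, map_mul]
    ring
  have vN : ev G * ev G' = a₀ ((X ^ d + δ).map (MvPolynomial.eval z)) *
      a₀ (c ^ (N * q) + C π * Q none) := by
    have e1 := hQ none
    simp only [x, Option.elim] at e1
    rw [Polynomial.map_sub, Polynomial.map_mul, Polynomial.map_map,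
      show (MvPolynomial.eval z).comp MvPolynomial.C = RingHom.id A from
        RingHom.ext fun a => MvPolynomial.eval_C a, Polynomial.map_id, sub_eq_iff_eq_add] at e1
    rw [← map_mul, ← hG', v1, e1, ← map_mul]
    congr 1
    ring
  refine ⟨∑ γ : Fin q × Fin d, a₀ (C (z' (some γ.1, γ.2))) * u γ,
    sum_mem fun γ _ => hWs _ _ (hu γ),
    ∑ γ : Fin q × Fin d, a₀ (C (z' (some γ.1, γ.2))) * -(a₀ (C ((n₀⁻¹ : Aˣ) : A)) * b γ),
    a₀ (C π) ^ (2 * v) * (∑ i, a₀ (Q (some i)) * β i) * ev G', c ^ (N * q) + C π * Q none, ?_, ?_⟩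
  · rw [coeff_add, coeff_C_mul]
    exact unit_add hπ hcq _
  · have e1 := congrArg ev hGE
    have e2 := congrArg ev hG
    rw [map_sub, map_pow, map_add, map_mul, map_pow, map_mul, map_pow, vE, hB, vs, hg, hp, v2,
      v2] at e1
    rw [map_add, map_add, map_mul, map_mul, map_pow, map_pow, map_pow, hU, vs, hg, hp, v2, v2,
      v2] at e2
    have e3 : a₀ (C π) ^ (v + 1) = a₀ (C π) ^ v * a₀ (C π) := pow_succ _ _
    rw [e3, mul_assoc (a₀ (C π) ^ v)]
    change (a₀ _ ^ N + a₀ _ ^ _ * _) * (a₀ _ - a₀ _ * _) = a₀ _ * _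
    generalize (a₀ (c * X ^ k) + _) ^ N = H at e1 ⊢
    generalize ∑ γ : Fin q × Fin d, a₀ (C (z' (some γ.1, γ.2))) * u γ = u₀ at e2 ⊢
    have e4 : a₀ (c * X ^ k) ^ N + a₀ (C π) ^ (2 * v + 1) * (s₁ + u₀) = ev G := by
      rw [e2]; ring
    rw [e4]
    linear_combination a₀ (c ^ (N * q) + C π * Q none) * e1 -
      a₀ (C π) * a₀ (C π) ^ (2 * v) * (∑ i, a₀ (Q (some i)) * β i) * vN

end Pool.Agent.MP_682409_ag.Tor

end

section

/-! From the hypothesis on the scheme to the abstract data. -/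

namespace Pool.Agent.MP_682409_ag.Tor

open IsLocalRing Polynomial CategoryTheory Limits AlgebraicGeometry

noncomputable section

namespace BrX

theorem mult_eq {Y : Scheme.{0}} (e : Q.Co Y) (w : Y) :
    (mult e w : KM (Y.residueField w)) = ∑ᶠ (z : Y) (_ : z ⤳ w), bd Nm (Gr z w) (e z) := rfl

open Classical in
/-- The multiplicity of a family is the sum of the orders. -/
theorem mult_sum {Y : Scheme.{0}} (e : ∀ z : Y, KM (Y.residueField z)) (w : Y) (Z : Finset Y)
    (a : ∀ z : Y, Y.residueField z) (hZ : ∀ z, e z ≠ 0 → z ∈ Z) (ha : ∀ z, e z = sy (a z))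
    (hc : ∀ z ∈ Z, z ⤳ w → Cv (Gr z w)) :
    kdeg _ (∑ᶠ (z : Y) (_ : z ⤳ w), bd Nm (Gr z w) (e z)) =
      ∑ z ∈ Z, (if z ⤳ w then ordG (Gr z w) (a z) else 0) := by
  rw [finsum_eq_sum_of_support_subset _ (s := Z), map_sum]
  · refine Finset.sum_congr rfl fun z hz => ?_
    rw [finsum_eq_if]
    split_ifs with h
    · rw [ha z, bd_sy isNorm_Nm (hc z hz h), map_intCast, Int.cast_id]
    · exact map_zero _
  · intro z hz
    refine hZ z fun h0 => hz ?_
    simp only [h0, bd_zero, finsum_zero]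

theorem frac_top (A : Type) [CommRing A] [IsDomain A] :
    Subfield.closure (Set.range (algebraMap A (FractionRing A)) ∪ ∅) = ⊤ := by
  refine top_unique fun x _ => ?_
  obtain ⟨a, b, -, rfl⟩ := IsFractionRing.div_surjective (A := A) x
  exact div_mem (Subfield.subset_closure (.inl ⟨a, rfl⟩)) (Subfield.subset_closure (.inl ⟨b, rfl⟩))

theorem dl_frac (A : Type) [CommRing A] [IsDomain A] : dl (algebraMap A (FractionRing A)) = 1 :=
  dl_eq_one_of_algebraic (IsFractionRing.injective A _) ∅ (frac_top A) fun _ h => h.elim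

theorem fg_frac (A : Type) [CommRing A] [IsDomain A] : FG (algebraMap A (FractionRing A)) :=
  ⟨∅, by rw [Finset.coe_empty]; exact frac_top A⟩

variable {A : CommRingCat.{0}} [IsDomain A] {X : Scheme.{0}} (p : X ⟶ Spec A)

theorem gen_proper (h : IsProper p) : IsProper (gen p) := by
  unfold gen
  infer_instance

theorem prL_proper {K L : CommRingCat.{0}} {Y : Scheme.{0}} (q : Y ⟶ Spec K) (φ : K ⟶ L)
    (h : IsProper q) : IsProper (prL q φ) := by
  unfold prL YL
  infer_instance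

/-- Closed points of the generic fibre have dimension at most one. -/
theorem dl_le_one (h1 : SFt) (h2 : SFn) (h : IsProper p) (y : XK p) (hy : IsClosed {y}) :
    dl (sK p (pullback.fst p _ y)) ≤ 1 := by
  have hp := gen_proper p h
  have hf := (h1 (FractionRing A) (XK p) (gen p) inferInstance y).1.1 hy
  have e : ((pullback.fst p _ : XK p ⟶ X).residueFieldMap y).hom.comp
      (sK p (pullback.fst p _ y)) = (sK (gen p) y).comp (algebraMap A (FractionRing A)) := by
    rw [h2.1, pullback.condition]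
    exact h2.2.1 _ _ _ (gen p) _ y
  have := dl_mono (sK p (pullback.fst p _ y))
    ((pullback.fst p _ : XK p ⟶ X).residueFieldMap y).hom
    (by rw [e]; exact fg_of_finite (fg_frac A) _ hf)
  rwa [e, dl_of_finite _ _ hf, dl_frac] at this

variable {L : Type} [Field L] (φ : CommRingCat.of (FractionRing A) ⟶ CommRingCat.of L)

theorem rr_p : (prY (gen p) φ ≫ pullback.fst _ _) ≫ p =
    prL (gen p) φ ≫ Spec.map (CommRingCat.ofHom (algebraMap A (FractionRing A)) ≫ φ) := by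
  have e : prY (gen p) φ ≫ gen p = prL (gen p) φ ≫ Spec.map φ := pullback.condition
  rw [Category.assoc, pullback.condition, Spec.map_comp, ← Category.assoc, ← Category.assoc, ← e]
  rfl

variable {p} [IsDiscreteValuationRing A]

/-- The abstract data of the base change. -/
def cs (h1 : SFt) (h2 : SFn) (h3 : SCen) (h5 : SCv) (D : FrData p) (f : A →+* L) (hf : FG f)
    (hφ : φ.hom.comp (algebraMap A (FractionRing A)) = f) (h : IsProper (prL (gen p) φ)) :
    CS D.fr f where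
  P := YL (gen p) φ
  κ z := (YL (gen p) φ).residueField z
  s := sK (prL (gen p) φ)
  pr w := (prY (gen p) φ ≫ pullback.fst _ _) w
  j w := ((prY (gen p) φ ≫ pullback.fst _ _).residueFieldMap w).hom
  sp := (· ⤳ ·)
  Γ := Gr
  cu := IsCurve (prL (gen p) φ)
  cl w := IsClosed {w}
  comp w := by
    refine (h2.1 _ _ _ p _ w).trans ?_
    rw [rr_p, ← hφ]
    exact h2.2.1 _ _ _ (prL (gen p) φ) _ w
  fin w hw := (h1 L _ (prL (gen p) φ) inferInstance w).1.1 hw
  tr z hz := (h5 A L f hf _ (prL (gen p) φ) inferInstance z hz).1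
  cen z hz ω hω ht := by
    obtain ⟨w, hw, q, hq⟩ := (h3 _ _ (prL (gen p) φ) h z).1 ω hω
    exact ⟨w, ((h5 A L f hf _ (prL (gen p) φ) inferInstance z hz).2 w hw).1 ⟨q, hq ▸ ht⟩, hw, q, hq⟩
  uniq z := (h3 _ _ (prL (gen p) φ) h z).2
  xc z w hw q := ⟨hw.map (prY (gen p) φ ≫ pullback.fst _ _).continuous, fun g hg =>
    q.2 _ (h2.2.2.2 _ _ (prY (gen p) φ ≫ pullback.fst _ _) z w hw g hg)⟩
  base z w hw := h2.2.2.1 _ _ (prL (gen p) φ) z w hw
  adm z w hz hc hw := ((h5 A L f hf _ (prL (gen p) φ) inferInstance z hz).2 w hw).2 hc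

end BrX

theorem sBr (h1 : SFt) (h2 : SFn) (h3 : SCen) (h4 : SPt) (h5 : SCv) : SBr := by
  classical
  intro A _ _ X p D N hP hT L _ f z₀ j₀ hi hf hj
  let φ : CommRingCat.of (FractionRing A) ⟶ CommRingCat.of L :=
    CommRingCat.ofHom (IsFractionRing.lift hi)
  have hφ : φ.hom.comp (algebraMap A (FractionRing A)) = f :=
    RingHom.ext fun x => IsFractionRing.lift_algebraMap hi x
  have hp := h4.1 A X p hP
  have hL := BrX.prL_proper (gen p) φ (BrX.gen_proper p hp)
  obtain ⟨w₀, hb, hw₀⟩ := h4.2 A X p L φ z₀ j₀ (hj.trans hφ.symm)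
  obtain ⟨e, ⟨hfin, he⟩, hm⟩ := hT L φ w₀ hb
  have hex : ∀ z, ∃ a : (YL (gen p) φ).residueField z, a ≠ 0 ∧ e z = sy a := fun z =>
    exists_sy_of_mem_one (he z).1
  choose a ha0 ha using hex
  refine ⟨BrX.cs φ h1 h2 h3 h5 D f hf hφ hL, w₀, hfin.toFinset, a,
    (h1 L _ (prL (gen p) φ) inferInstance w₀).1.2 (RingHom.Finite.of_surjective _ hb.2), hb, hw₀,
    fun z hz => ⟨(he z).2 (hfin.mem_toFinset.1 hz), ha0 z⟩, fun w hw hd => ?_⟩
  have hn : ¬IsClosed {prY (gen p) φ w} := fun hc => hd (BrX.dl_le_one p h1 h2 hp _ hc)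
  have h6 := congrArg (kdeg _) ((BrX.mult_eq e w).symm.trans (hm w hw hn))
  rw [BrX.mult_sum e w hfin.toFinset a (fun z hz => hfin.mem_toFinset.2 hz) ha fun z hz hzw =>
    (((h5 A L f hf _ (prL (gen p) φ) inferInstance z ((he z).2 (hfin.mem_toFinset.1 hz))).2 w
      hzw).2 hw).cv] at h6
  refine h6.trans ((map_natCast (kdeg _) _).trans ?_)
  by_cases h : w = w₀
  · exact (congrArg Nat.cast (if_pos h)).trans (if_pos h).symm
  · exact (congrArg Nat.cast (if_neg h)).trans (if_neg h).symm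

end

end Pool.Agent.MP_682409_ag.Tor

end
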