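import Pool.Agent.Mg.F682409.Gf29adc
import Pool.Agent.Mg.F53d700.G85e9aa
import Pool.Agent.Mg.F53d700.Gbdc705
import Pool.Agent.MP_682409_ag.Tor.D2
import Pool.Agent.Mg.F53d700.Gcf1c35
import Pool.Agent.Mg.F53d700.G2b16be

set_option linter.all false

section

/-! The level `2 v + 1` from the divisibility lemma at infinity. -/

namespace Pool.Agent.MP_682409_ag.Tor

open IsLocalRing Polynomial CategoryTheory Limits AlgebraicGeometry

namespace BBX

theorem cl_inf {A : Type} [CommRing A] [IsDomain A] [IsDiscreteValuationRing A] {π : A}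
    (hπ : Irreducible π) {X : Fr0 A} (hX : X.Facts) {L : Type} [Field L] {z : X.P}
    {j : X.κ z →+* L} (hf : FG (j.comp (X.s z))) (hd : dl (j.comp (X.s z)) = 2) {τ : L}
    {o : Oi A →+* L} (ho : OiAt (j.comp (X.s z)) τ⁻¹ o) {φ : L} (h0 : φ ≠ 0)
    (hφ : ∀ V : ValuationSubring L, (∀ a, j.comp (X.s z) a ∈ V) →
      V.valuation (j.comp (X.s z) π) < 1 → τ ∈ V → V.valuation φ = 1) :
    X.cl j o φ ∈ X.Rat := by
  classical
  have e := cl_split fs_all hX hf hd o o 1 φ fun V hV => by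
    rw [vz_one, ite_self, zero_add]
    split_ifs with hc
    · rfl
    · have := ((dv_stmt A L _).2.2 hf V hV).1
      obtain ⟨V₀, hle, h1, h2, -⟩ := exists_refine hπ V hV.2.1
      refine (vz_eq_zero_iff V h0).2 (val_one_of_le hle (hφ V₀ h1 h2 ?_))
      by_contra hn
      refine hc fun x => hle (ho.mem_of_lt V₀ h1 ?_ x)
      rw [← ValuationSubring.valuation_le_one_iff, not_le] at hn
      rw [map_inv₀]
      exact inv_lt_one_of_one_lt₀ hn
  rw [Fr0.cl_one, zero_add] at e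
  exact e ▸ pf_all A X hX L z j hf hd φ

end BBX

theorem sBB (h : SDiv) : SBB := by
  intro A _ _ _ _ π hπ X hX N v N₀ hN₀ hN hH O L _ _ _ g o z j hD hj a ha
  rcases eq_or_ne a 0 with rfl | ha0
  · rw [Fr0.cl_zero]
    exact zero_mem _
  obtain ⟨τ, o', hτ, ho', hD', -, hF⟩ := ti_stmt hen1_stmt (hen2_stmt hen1_stmt) df_stmt dv_stmt
    fs_all pf_all A π hπ X hX O L g o z j hD hj ∅ Set.finite_empty
  obtain ⟨r, hr⟩ := hF ∅ Set.finite_empty (by simp) (2 * v + 1) (by omega) a ha0 ha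
  obtain ⟨s, hs, hrat⟩ := hr r le_rfl 0 (zero_mem _)
  rw [mul_zero, add_zero, div_one] at hrat
  rcases eq_or_ne (1 + o (g π) ^ (2 * v + 1) * s * τ ^ r) 0 with h0 | h0
  · rwa [h0, Fr0.cl_zero, add_zero] at hrat
  obtain ⟨φ, e, h₁, e1, e2, e3, e4⟩ :=
    h A π hπ L (o.comp g) τ o' N v r N₀ s hτ ho' hD' hN₀ hN hs h0
  have hg : ∀ x, o' (gI A x) = o (g x) := fun x => DFunLike.congr_fun ho'.comp_gI x
  have hf : FG (j.comp (X.s z)) := hj ▸ hD.toLoc.fg.1
  have hd : dl (j.comp (X.s z)) = 2 := hj ▸ hD.dl_two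
  have h10 : h₁ ≠ 0 := by
    obtain ⟨V, hV⟩ := VV_nonempty df_stmt hπ hD'
    have := valuation_eq_one_of_mem_Uv V (hg π ▸ hV.2.1) (e4 V hV)
    rintro rfl
    simp at this
  have hp : (1 + o (g π) ^ (2 * v + 1) * s * τ ^ r) * φ * e ≠ 0 := e1 ▸ pow_ne_zero N h10
  have hφ0 : φ ≠ 0 := right_ne_zero_of_mul (left_ne_zero_of_mul hp)
  have k1 : (N : ℤ) • X.cl j o' h₁ ∈ X.Rat :=
    hH (Oi A) L (gI A) o' z j hD' (hj.trans ho'.comp_gI.symm) h₁ fun V hV => by
      rw [hg]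
      exact e4 V hV
  have k2 : X.cl j o' φ ∈ X.Rat :=
    BBX.cl_inf hπ hX hf hd (hj ▸ ho') hφ0 (hj ▸ e2)
  rw [← Fr0.cl_zpow, zpow_natCast, ← e1] at k1
  change X.cl j o' ((1 + o (g π) ^ (2 * v + 1) * s * τ ^ r) * φ * e) ∈ X.Rat at k1
  rw [cl_mul fs_all hX hf hd o' (left_ne_zero_of_mul hp) (right_ne_zero_of_mul hp),
    cl_unit dv_stmt hf o' e3, add_zero, cl_mul fs_all hX hf hd o' h0 hφ0] at k1
  simpa using sub_mem hrat (sub_mem k1 k2)

end Pool.Agent.MP_682409_ag.Tor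

end

section

/-! The threefold lemma for an arbitrary function. -/

namespace Pool.Agent.MP_682409_ag.Tor

open IsLocalRing Polynomial CategoryTheory Limits AlgebraicGeometry

noncomputable section

namespace TGX

variable {A : Type} [CommRing A] [IsDomain A] [IsDiscreteValuationRing A] [HenselianLocalRing A]
  {π : A} {X : Fr0 A} {O L E : Type} [CommRing O] [IsLocalRing O] [Field L] [Field E]
  {g : A →+* O} {o : O →+* L} {ι : L →+* E} {z : X.P} {j : X.κ z →+* E} {b : L}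

/-- The contribution of a prime divisor that does not contain the image of `L`. -/
theorem term_mem (hπ : Irreducible π) (F : X.Facts) (hD : Dat g o)
    (hj : j.comp (X.s z) = ι.comp (o.comp g))
    (hb : ∀ V ∈ VV (g π) o, b ∈ Uv V (o (g π))) {ω : ValuationSubring E}
    [IsDiscreteValuationRing ω] {y : X.P} {j' : X.κ y →+* ResidueField ω} (hc : X.Cen j ω y j')
    (hfg : FG (j'.comp (X.s y))) (hdl : dl (j'.comp (X.s y)) = 2)
    (hO : ∀ a, (ι.comp o) a ∈ ω) {c : ResidueField ω} {β : E}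
    (hres : res ω (sy (ι b) * sy β) = sy c) (hn : ¬∀ x, ι x ∈ ω) :
    X.cl j' (redH (ι.comp o) ω hO) c ∈ X.Rat := by
  have := hD.noeth
  obtain ⟨hV, hs⟩ := hc.comp_s F
  have hs' : j'.comp (X.s y) = (redH (ι.comp o) ω hO).comp g := by
    rw [hs]
    ext a
    exact congrArg (residue ω) (Subtype.ext (DFunLike.congr_fun hj a))
  have hlt : ∀ a, (ω.comap ι).valuation (o a) < 1 ↔ redH (ι.comp o) ω hO a = 0 := fun a => by
    rw [val_comap_lt]
    exact ((residue_eq_zero_iff _).trans (ω.valuation_lt_one_iff ⟨_, hO a⟩)).symm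
  have hq : RingHom.ker (redH (ι.comp o) ω hO) ≠ ⊥ := fun hq => hn fun a => by
    have h2 : ω.comap ι = ⊤ := ctr_bot hD.inj hD.fin fun a =>
      ⟨hO a, (hlt a).trans (by rw [← RingHom.mem_ker, hq])⟩
    exact (h2 ▸ trivial : a ∈ ω.comap ι)
  by_cases hv : redH (ι.comp o) ω hO (g π) ≠ 0 ∨
      RingHom.ker (redH (ι.comp o) ω hO) = maximalIdeal O
  · rw [Fr0.cl_congr_o (o' := j'.comp (X.s y)) c fun V hV => iff_of_true
      (hD.hor_mem hen1_stmt hπ _ hq hv V fun a => (DFunLike.congr_fun hs' a) ▸ hV a) hV]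
    exact pf_all A X F _ y j' hfg hdl c
  · rw [not_or, not_not] at hv
    obtain ⟨a, ha, ha'⟩ := SetLike.exists_of_lt
      ((le_maximalIdeal (RingHom.ker_ne_top (redH (ι.comp o) ω hO))).lt_of_ne hv.2)
    have h2 := Uv_comap ι ω (hb _ ⟨hO, (hlt _).2 hv.1, a, ha, le_antisymm
      (((ω.comap ι).valuation_le_one_iff _).2 (hO a)) (not_lt.1 fun e => ha' ((hlt a).1 e))⟩)
    rw [Fr0.cl_of_sy (hres.symm.trans (res_of_mem_KI ω ((val_comap_lt ι ω _).1 ((hlt _).2 hv.1))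
      (sy_mul_mem_KI h2 _)))]
    exact zero_mem _

/-- Splitting a vanishing sum over a finite set along a predicate. -/
theorem split {I M : Type} [AddCommGroup M] (R : AddSubgroup M) (S : Finset I) (p : I → Prop)
    [DecidablePred p] (f : S → M) (G : I → M) (h0 : ∑ i, f i = 0)
    (h1 : ∀ i : S, p i → f i = -G i) (h2 : ∀ i : S, ¬p i → f i ∈ R) :
    ∑ i ∈ S.filter p, G i ∈ R := by
  have e : ∑ i ∈ S.filter p, G i = ∑ i : S, (f i + if p i then G i else 0) := by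
    rw [Finset.sum_add_distrib, h0, zero_add, Finset.sum_filter,
      Finset.sum_coe_sort S fun i => if p i then G i else 0]
  rw [e]
  refine sum_mem fun i _ => ?_
  by_cases h : p i
  · rw [if_pos h, h1 i h, neg_add_cancel]
    exact zero_mem _
  · rw [if_neg h, add_zero]
    exact h2 i h

end TGX

theorem sTG : STG := by
  intro A _ _ _ _ π hπ X F O L E _ _ _ _ g o ι t z j b β Θ hD hj ht hfin hb0 hβ hb hΘ
  classical
  obtain ⟨hfg, hdl⟩ := dl_transc hD.fg.1 ι t ht hfin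
  rw [hD.dl_eq] at hdl
  obtain ⟨T, jT, φ, φκ, FT, hM, hz, htT, hRT, hm⟩ := exists_model (facts_stmt df_stmt) F z j
    (ι.comp o).range (hj ▸ hD.eft.map hD.inj (ι.comp o)) t
  obtain ⟨rfl, e⟩ := Sigma.mk.inj_iff.1 hz
  obtain rfl := eq_of_heq e
  have hs : jT.comp (T.s T.η) = ι.comp (o.comp g) := by
    rw [← hM.1 T.η, ← RingHom.comp_assoc, hj]
  have hjT : jT.Finite := TT.finite_of_range jT ι hD.inj hD.fin t hfin (fun a => hRT _ ⟨a, rfl⟩)
    htT (V4a.fg_mono hfg (by rw [← hs]; exact Set.range_comp_subset_range (T.s T.η) jT))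
  have h3 : T.δ T.η = 3 := by rw [Fr0.δ, ← dl_of_finite _ jT hjT, hs, hdl]
  have hm' : ∀ (W : ValuationSubring E) y J, T.Cen jT W y J → (∀ a, (ι.comp o) a ∈ W) →
      ∀ a, ∃ c ∈ T.O T.η y, jT c = (ι.comp o) a := fun W y J hc h a =>
    hm W y J hc (by rintro _ ⟨x, rfl⟩; exact h x) _ ⟨a, rfl⟩
  have hS : {ω : ValuationSubring E | (∃ y J, T.Cen jT ω y J ∧ T.δ T.η = T.δ y + 1) ∧
      (∀ a, (ι.comp o) a ∈ ω) ∧ (ω.valuation (ι b) ≠ 1 ∨ ω.valuation β ≠ 1)}.Finite := by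
    refine ((Fr0.fin_vis FT hjT (b := ι b) (by simpa using hb0)).union
      (Fr0.fin_vis FT hjT hβ)).subset ?_
    rintro ω ⟨e1, -, e2 | e2⟩
    · exact .inl ⟨e1, e2⟩
    · exact .inr ⟨e1, e2⟩
  have hmem := fun ω : hS.toFinset => hS.mem_toFinset.1 ω.2
  choose u J hJ using fun ω => (hmem ω).1
  have hpd := fun ω => (hJ ω).1.pd FT hjT (hJ ω).2
  have hu : ∀ ω, T.δ (u ω) = 2 := fun ω => by have := (hJ ω).2; omega
  choose c hc using fun ω : hS.toFinset => @exists_res_eq _ _ ω.1 (hpd ω).1 (ι b) β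
  have hE : ∀ ω, FG ((J ω).comp (T.s (u ω))) ∧ dl ((J ω).comp (T.s (u ω))) = 2 := fun ω =>
    ⟨fg_of_finite (FT.fg _) _ (hpd ω).2.1, (dl_of_finite _ _ (hpd ω).2.1).trans (hu ω)⟩
  have hK := kt kl_all fs_all FT jT hjT h3 (ι.comp o) hm' (ι b) β hS.toFinset u J
    (fun ω => (hmem ω).2.1) c (fun ω => ⟨(hJ ω).1, hu ω, (hc ω).2⟩) fun ω y J' e1 e2 e3 e4 => by
      have := (e1.pd FT hjT (by omega)).1
      have e5 := fun h => e4 (hS.mem_toFinset.2 ⟨⟨y, J', e1, by omega⟩, e3, h⟩)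
      rw [imp_false, not_or, not_not, not_not] at e5
      simpa using res_list_units ω [ι b, β] (by simpa using e5)
  have hP := cl_push_sum fs_all FT F hM (fun ω : hS.toFinset => ResidueField ω.1) u J _ c _ hE hK
  have hX := fun ω => hM.2 E T.η jT ω.1 (u ω) (J ω) (hJ ω).1
  have hEX : ∀ ω, ((J ω).comp (φκ (u ω))).comp (X.s (φ (u ω))) = (J ω).comp (T.s (u ω)) :=
    fun ω => by rw [RingHom.comp_assoc, hM.1]
  refine ⟨hS.toFinset.filter fun ω => ∀ x, ι x ∈ ω, fun ω hω => ?_, fun ω₀ h₀ hne hv => ?_, ?_⟩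
  · obtain ⟨h1, h2⟩ := Finset.mem_filter.1 hω
    exact ⟨h2, (hpd ⟨ω, h1⟩).2.2.1⟩
  · refine Finset.mem_filter.2 ⟨?_, h₀⟩
    have hO₀ : ∀ a, (ι.comp o) a ∈ ω₀ := fun a => h₀ _
    obtain ⟨y, J', e1⟩ := FT.cen jT ω₀ fun a => (DFunLike.congr_fun hs a).symm ▸ h₀ (o (g a))
    obtain ⟨hV, e2⟩ := e1.comp_s FT
    have hρ : (redH ι ω₀ h₀).Finite := (hΘ ω₀ h₀ hne).1
    have e3 : J'.comp (T.s y) = (redH ι ω₀ h₀).comp (o.comp g) := by
      rw [e2]
      ext a
      exact congrArg (residue ω₀) (Subtype.ext (DFunLike.congr_fun hs a))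
    have e4 : J'.Finite := by
      refine (finite_iff_finiteDimensional J').2 (TT.fin_of_le ?_ (hD.ext _ hρ).fin)
      refine Subfield.closure_mono ?_
      rintro _ ⟨a, rfl⟩
      obtain ⟨_, ⟨p, hp, rfl⟩, e5⟩ := hm' ω₀ y J' e1 hO₀ a
      obtain ⟨_, e6⟩ := e1.2 p hp
      exact ⟨p.2, e6.trans (congrArg (residue ω₀) (Subtype.ext e5))⟩
    have e5 : T.δ y = 2 := by
      rw [Fr0.δ, ← dl_of_finite _ J' e4, e3, dl_of_finite _ _ hρ, hD.dl_eq]
    have := (e1.pd FT hjT (by omega)).1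
    exact hS.mem_toFinset.2 ⟨⟨y, J', e1, by omega⟩, hO₀,
      .inr fun e => hv ((vz_eq_zero_iff ω₀ hβ).2 e)⟩
  · refine TGX.split X.Rat _ _ _ _ hP (fun ω hω => ?_) fun ω hω => zsmul_mem ?_ _
    · have := (hpd ω).1
      rw [Fr0.cl_of_smul ((hc ω).2.symm.trans (TT.res_eq ι ω.1 hω hb0 β)), hs,
        (hΘ ω.1 hω (hpd ω).2.2.1).2 _ _ (hX ω), smul_smul, mul_neg, neg_smul]
      rfl
    · have := (hpd ω).1
      exact TGX.term_mem hπ F hD hj hb (hX ω) (hEX ω ▸ (hE ω).1) (hEX ω ▸ (hE ω).2) _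
        (hc ω).2 hω

end

end Pool.Agent.MP_682409_ag.Tor

end

section

/-! Curves on a scheme of finite type over a finitely generated field. -/

namespace Pool.Agent.MP_682409_ag.Tor

open IsLocalRing Polynomial CategoryTheory Limits AlgebraicGeometry

noncomputable section

namespace CvX

theorem eft_of_fg {A L E : Type} [CommRing A] [Field L] [Field E] {f : A →+* L} (hf : FG f)
    {ι : L →+* E} {R : Subring E} (h : EFT ι R) : EFT (ι.comp f) R := by
  classical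
  obtain ⟨s, hs⟩ := hf
  obtain ⟨s', h1, h2⟩ := h
  set C := Subring.closure (Set.range (ι.comp f) ∪ ↑(s.image ι ∪ s')) with hC
  have hι : ∀ x, ι x ∈ R := fun x => h1 (Subring.subset_closure (.inl ⟨x, rfl⟩))
  have hCR : C ≤ R := by
    refine Subring.closure_le.2 ?_
    rintro y (⟨a, rfl⟩ | hy)
    · exact hι _
    · rcases Finset.mem_union.1 hy with hy | hy
      · obtain ⟨x, -, rfl⟩ := Finset.mem_image.1 hy
        exact hι _
      · exact h1 (Subring.subset_closure (.inr hy))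
  let M : Subring E :=
    { carrier := {x | ∃ b ∈ C, ∃ c ∈ C, c ≠ 0 ∧ c⁻¹ ∈ R ∧ x = b / c}
      mul_mem' := by
        rintro _ _ ⟨b, hb, c, hc, h0, h, rfl⟩ ⟨b', hb', c', hc', h0', h', rfl⟩
        exact ⟨b * b', mul_mem hb hb', c * c', mul_mem hc hc', mul_ne_zero h0 h0',
          mul_inv c c' ▸ mul_mem h h', div_mul_div_comm _ _ _ _⟩
      one_mem' := ⟨1, one_mem _, 1, one_mem _, one_ne_zero, by simp, (div_one _).symm⟩
      add_mem' := by
        rintro _ _ ⟨b, hb, c, hc, h0, h, rfl⟩ ⟨b', hb', c', hc', h0', h', rfl⟩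
        exact ⟨b * c' + c * b', add_mem (mul_mem hb hc') (mul_mem hc hb'), c * c', mul_mem hc hc',
          mul_ne_zero h0 h0', mul_inv c c' ▸ mul_mem h h', div_add_div _ _ h0 h0'⟩
      zero_mem' := ⟨0, zero_mem _, 1, one_mem _, one_ne_zero, by simp, (zero_div _).symm⟩
      neg_mem' := by
        rintro _ ⟨b, hb, c, hc, h0, h, rfl⟩
        exact ⟨-b, neg_mem hb, c, hc, h0, h, (neg_div _ _).symm⟩ }
  have h3 : ∀ x ∈ Subring.closure (Set.range f ∪ ↑s), ι x ∈ C := fun x hx => by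
    refine (Subring.closure_le (t := C.comap ι)).2 ?_ hx
    rintro y (⟨a, rfl⟩ | hy)
    · exact Subring.subset_closure (.inl ⟨a, rfl⟩)
    · exact Subring.subset_closure (.inr (by simpa using .inl ⟨y, hy, rfl⟩))
  have h4 : Subring.closure (Set.range ι ∪ ↑s') ≤ M := by
    refine Subring.closure_le.2 ?_
    rintro y (⟨x, rfl⟩ | hy)
    · obtain ⟨b, hb, c, hc, rfl⟩ := Subfield.mem_closure_iff.1 (hs ▸ Subfield.mem_top x)
      by_cases h0 : c = 0
      · simp [h0]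
      · exact ⟨_, h3 b hb, _, h3 c hc, by simpa using h0, map_inv₀ ι c ▸ hι _, map_div₀ ι b c⟩
    · exact ⟨y, Subring.subset_closure (.inr (by simp [hy])), 1, one_mem _, one_ne_zero, by simp,
        (div_one _).symm⟩
  refine ⟨_, hCR, fun a ha => ?_⟩
  obtain ⟨b, hb, c, hc, h0, hc', rfl⟩ := h2 a ha
  obtain ⟨b1, hb1, b2, hb2, h02, hb2', rfl⟩ := h4 hb
  obtain ⟨c1, hc1, c2, hc2, h03, hc2', rfl⟩ := h4 hc
  have h5 : c1 ≠ 0 := by rintro rfl; simp at h0
  refine ⟨b1 * c2, mul_mem hb1 hc2, b2 * c1, mul_mem hb2 hc1, mul_ne_zero h02 h5, ?_,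
    by field_simp⟩
  have e : (b2 * c1)⁻¹ = b2⁻¹ * ((c1 / c2)⁻¹ * c2⁻¹) := by field_simp
  rw [e]
  exact mul_mem hb2' (mul_mem hc' hc2')

theorem exists_t {L E : Type} [Field L] [Field E] (ι : L →+* E) (hι : FG ι)
    (h1 : V4a.td ι = 1) : ∃ t : E, (∀ h : L[X], h ≠ 0 → h.eval₂ ι t ≠ 0) ∧
      FiniteDimensional (Subfield.closure (Set.range ι ∪ {t})) E := by
  have h0 : ¬ V4a.td ι = 0 := by
    rw [h1]
    exact one_ne_zero
  rw [V4a.td_zero] at h0
  push Not at h0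
  obtain ⟨t, ht⟩ := h0
  refine ⟨t, ht, ?_⟩
  have h2 : FG (Subfield.closure (Set.range ι ∪ {t})).subtype :=
    V4a.fg_sub hι fun x hx => Subfield.subset_closure (.inl hx)
  have h3 := congrArg Cardinal.toNat (V4a.td_split ι {t})
  rw [V4a.td_toM ι t ht, h1, Cardinal.toNat_add Cardinal.one_lt_aleph0 (V4a.td_lt h2),
    Cardinal.one_toNat] at h3
  exact V4a.finite_of_fg h2 (V4a.zero_of (V4a.td_lt h2) (by omega))

variable {A L E κ : Type} [CommRing A] [IsDomain A] [IsDiscreteValuationRing A] [Field L]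
  [Field E] [Field κ] {f : A →+* L} {ι : L →+* E} {ι' : L →+* κ} {Γ : Subring (E × κ)}

theorem fin (hf : FG f) (hι : FG (ι.comp f)) (hι' : FG ι') (hd : dl (ι.comp f) = dl f + 1)
    (hb : ∀ a, (ι a, ι' a) ∈ Γ) (p : Over Γ) (hp : p.1.1 ≠ ⊤) : ι'.Finite := by
  have h : ∀ a, (ι.comp f) a ∈ p.1.1 := fun a => (p.2 _ (hb (f a))).1
  have e : p.1.2.comp (ι'.comp f) = redH (ι.comp f) p.1.1 h :=
    RingHom.ext fun a => (p.2 _ (hb (f a))).2
  have h1 := dl_le_red hι p.1.1 h _ _ e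
  have h2 := dl_red_lt hι p.1.1 hp h
  have h3 := V4a.fg_comp hf hι'
  have h4 := dl_mono f ι' h3
  exact finite_of_dl_eq f ι' h3 (by omega)

theorem dim (hf : FG f) (hd : dl (ι.comp f) = dl f + 1) (hb : ∀ a, (ι a, ι' a) ∈ Γ)
    (hG : IsGraph Γ) (hn : IsNoetherianRing (src Γ)) (he : EFT ι (src Γ))
    (hc : Subfield.closure (src Γ : Set E) = ⊤) (hι' : ι'.Finite) :
    ringKrullDim (src Γ) = 1 := by
  have := hG.isLocalRing
  obtain ⟨r, h1, -, h2, h4⟩ := hG.exists_red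
  let g : A →+* src Γ := (ι.comp f).codRestrict _ fun a => V2.mem_src.2 ⟨_, hb (f a)⟩
  have e1 : (src Γ).subtype.comp g = ι.comp f := rfl
  have e2 : r.comp g = ι'.comp f := RingHom.ext fun a => (h2 _ _ (hb (f a))).2
  have : IsLocalHom r := ⟨fun a ha => (h4 a).1 ha.ne_zero⟩
  have e3 : (ResidueField.lift r).comp ((residue _).comp g) = ι'.comp f := by
    rw [← RingHom.comp_assoc, ResidueField.lift_comp_residue, e2]
  have h5 : (ResidueField.lift r).Finite := RingHom.Finite.of_surjective _ fun b => by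
    obtain ⟨a, rfl⟩ := h1 b
    exact ⟨residue _ a, ResidueField.lift_residue_apply r a⟩
  have h6 := dl_of_finite ((residue _).comp g) _ h5
  have h7 : Loc g (src Γ).subtype 1 := by
    refine ⟨hn, (src Γ).subtype_injective, ?_, ?_, ?_⟩
    · rw [e1, Subring.range_subtype]
      exact eft_of_fg hf he
    · have e : Set.range (src Γ).subtype = (src Γ : Set E) := Subtype.range_coe
      rw [e]
      exact Facts3.fin_of_top hc
    · rw [e1, ← h6, e3, dl_of_finite f ι' hι', hd]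
  exact_mod_cast df_stmt A _ E g _ 1 h7

theorem graph {X : Scheme.{0}} {z w : X} (h : z ⤳ w) : IsGraph (Gr z w) := by
  have hu : ∀ s : X.presheaf.stalk w, (X.residue w).hom s ≠ 0 → IsUnit s := fun s hs => by
    by_contra hs'
    exact hs ((residue_eq_zero_iff s).2 hs')
  refine ⟨fun b => ?_, fun b hb => ?_, fun g hg h0 => ?_⟩
  · obtain ⟨s, rfl⟩ := X.residue_surjective w b
    exact ⟨_, (Lit.mem_gr h _).2 ⟨s, rfl⟩⟩
  · obtain ⟨s, hs⟩ := (Lit.mem_gr h _).1 hb
    obtain ⟨h1, rfl⟩ := Prod.ext_iff.1 hs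
    by_contra h0
    exact ((hu s h0).map (ev h)).ne_zero h1
  · obtain ⟨s, rfl⟩ := (Lit.mem_gr h _).1 hg
    obtain ⟨u, rfl⟩ := hu s h0
    refine ⟨_, (Lit.mem_gr h _).2 ⟨↑u⁻¹, rfl⟩, ?_⟩
    change ev h u * ev h ↑u⁻¹ = 1
    rw [← map_mul, Units.mul_inv, map_one]

end CvX

theorem sCv (hF : SFt) (hN : SFn) : SCv := by
  intro A _ _ _ L _ f hf Y q hq z hz
  have hz' : V4a.td (A := L) (sK q z) = 1 := hz
  obtain ⟨t, ht, hfin⟩ := CvX.exists_t (L := L) (sK q z) (hF L Y q hq z).2.1 hz'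
  obtain ⟨h1, h2⟩ := dl_transc hf (sK q z) t ht hfin
  refine ⟨⟨t, ht, hfin⟩, fun w h => ?_⟩
  obtain ⟨g1, g2, g3, g4⟩ := hF L Y q hq w
  have hb := hN.2.2.1 _ Y q z w h
  refine ⟨fun ⟨p, hp⟩ => g1.2 (CvX.fin hf h1 g2 h2 hb p hp), fun hw => ?_⟩
  have e := BR2.src_gr h
  have hc : Subfield.closure (src (Gr z w) : Set (Y.residueField z)) = ⊤ := by
    rw [e]
    exact Lit.closure_ev h
  have he : EFT (A := L) (sK q z) (src (Gr z w)) := by
    rw [e]
    exact g4 z h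
  have hn : IsNoetherianRing (src (Gr z w)) := by
    rw [e]
    exact isNoetherianRing_range _
  have hd := CvX.dim hf h2 hb (CvX.graph h) hn he hc (g1.1 hw)
  rw [e] at hd
  exact ⟨Lit.cv_gr h g3 hd, hc, CvX.eft_of_fg hf he⟩

end

end Pool.Agent.MP_682409_ag.Tor

end

section

namespace Pool.Agent.MP_682409_ag.Tor

open IsLocalRing Polynomial CategoryTheory Limits AlgebraicGeometry

noncomputable section

namespace FnX

theorem sK_eq {A : CommRingCat.{0}} {X : Scheme.{0}} (p : X ⟶ Spec A) (z : X) :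
    sK p z = ((Scheme.ΓSpecIso A).inv ≫ p.appTop ≫ X.presheaf.germ ⊤ z trivial ≫
      X.residue z).hom := rfl

theorem mem {X : Scheme.{0}} {z w : X} (h : z ⤳ w) (g) :
    g ∈ Gr z w ↔ ∃ s, (ev h s, (X.residue w).hom s) = g := by
  rw [Gr, dif_pos h]
  exact Iff.rfl

theorem germ {X Y : Scheme.{0}} (r : Y ⟶ X) (w : Y) :
    X.presheaf.germ ⊤ (r w) trivial ≫ X.residue (r w) ≫ r.residueFieldMap w =
      r.appTop ≫ Y.presheaf.germ ⊤ w trivial ≫ Y.residue w := by
  rw [Scheme.residue_residueFieldMap, ← Category.assoc, Scheme.Hom.germ_stalkMap, Category.assoc]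
  rfl

theorem one {A : CommRingCat.{0}} {X Y : Scheme.{0}} (p : X ⟶ Spec A) (r : Y ⟶ X) (w : Y) :
    (r.residueFieldMap w).hom.comp (sK p (r w)) = sK (r ≫ p) w := by
  rw [sK_eq, sK_eq, ← CommRingCat.hom_comp, Scheme.Hom.comp_appTop]
  simp only [Category.assoc]
  rw [germ]

theorem two {A B : CommRingCat.{0}} {Y : Scheme.{0}} (q : Y ⟶ Spec B) (φ : A ⟶ B) (w : Y) :
    sK (q ≫ Spec.map φ) w = (sK q w).comp φ.hom := by
  rw [sK_eq, sK_eq, ← CommRingCat.hom_comp, Scheme.Hom.comp_appTop,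
    Scheme.ΓSpecIso_inv_naturality_assoc, Category.assoc]

theorem ev_sO {A : CommRingCat.{0}} {Y : Scheme.{0}} (q : Y ⟶ Spec A) {z w : Y} (h : z ⤳ w) :
    (ev h).comp (sO q w) = sK q z := by
  rw [sK_eq, ev, sO, ← CommRingCat.hom_comp]
  simp only [Category.assoc]
  rw [TopCat.Presheaf.germ_stalkSpecializes_assoc]

theorem ev_map {X Y : Scheme.{0}} (r : Y ⟶ X) {z w : Y} (h : z ⤳ w) :
    (ev h).comp (r.stalkMap w).hom =
      (r.residueFieldMap z).hom.comp (ev (r.base.hom.map_specializes h)) := by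
  rw [ev, ev, ← CommRingCat.hom_comp, ← CommRingCat.hom_comp, Category.assoc,
    Scheme.residue_residueFieldMap, Scheme.Hom.stalkSpecializes_stalkMap_assoc r z w h]

end FnX

theorem sFn : SFn := by
  refine ⟨fun A X Y p r w => FnX.one p r w, fun A B Y q φ w => FnX.two q φ w,
    fun A Y q z w h a => (FnX.mem h _).2 ⟨sO q w a, ?_⟩, fun X Y r z w h g hg => ?_⟩
  · exact Prod.ext (DFunLike.congr_fun (FnX.ev_sO q h) a) rfl
  · obtain ⟨s, rfl⟩ := (FnX.mem (r.base.hom.map_specializes h) g).1 hg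
    refine (FnX.mem h _).2 ⟨(r.stalkMap w).hom s, Prod.ext
      (DFunLike.congr_fun (FnX.ev_map r h) s) ?_⟩
    exact (DFunLike.congr_fun
      (congrArg CommRingCat.Hom.hom (Scheme.residue_residueFieldMap r w)) s).symm

end

end Pool.Agent.MP_682409_ag.Tor

end

section

/-! The dimension of the frame, and the valuation of an integer. -/

namespace Pool.Agent.MP_682409_ag.Tor

open CategoryTheory Limits AlgebraicGeometry IsLocalRing

theorem dim_of {A : CommRingCat.{0}} [IsDomain A] [IsDiscreteValuationRing A] {X : Scheme.{0}}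
    {p : X ⟶ Spec A} {d : ℕ} (h : HasDim (gen p) d) (D : FrData p) (F : D.fr.Facts)
    (hh : D.fr.hor D.η) : D.fr.δ D.η = d + 1 := by
  have hi := BR3.isOpenImmersion_fst p
  obtain ⟨η, hη⟩ := BR3.mem_range_fst p D.η hh
  have h1 := h η fun y => by
    rw [← (pullback.fst p (Spec.map (CommRingCat.ofHom
      (algebraMap A (FractionRing A))))).isOpenEmbedding.isInducing.specializes_iff]
    exact hη ▸ D.gen _
  have h2 := sFn.1 A X _ p (pullback.fst p (Spec.map (CommRingCat.ofHom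
    (algebraMap A (FractionRing A))))) η
  rw [pullback.condition, sFn.2.1] at h2
  have h3 : ((pullback.fst p (Spec.map (CommRingCat.ofHom
      (algebraMap A (FractionRing A))))).residueFieldMap η).hom.Finite :=
    RingHom.Finite.of_surjective _ (ConcreteCategory.bijective_of_isIso _).2
  have hf := F.fg D.η
  change dl (sK p D.η) = _
  change FG (sK p D.η) at hf
  rw [← hη] at hf ⊢
  have h4 := fg_of_finite hf _ h3
  rw [← dl_of_finite _ _ h3, h2]
  rw [h2] at h4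
  have h5 := (V4a.dl_add (algebraMap A (FractionRing A)) (sK (gen p) η) (V4a.fg_lt h4)).2
  have h6 : V4a.td (sK (gen p) η) = d := h1
  have h7 : dl (algebraMap A (FractionRing A)) = 1 := by
    have e : V4a.td (V4a.KK (algebraMap A (FractionRing A))).subtype = 0 :=
      V4a.td_finite (RingHom.Finite.of_surjective _ fun x => by
        obtain ⟨a, b, -, rfl⟩ := IsFractionRing.div_surjective (A := A) x
        exact ⟨⟨_, div_mem (Subfield.subset_closure ⟨a, rfl⟩)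
          (Subfield.subset_closure ⟨b, rfl⟩)⟩, rfl⟩)
    rw [V4a.dl_eq, e, if_pos (IsFractionRing.injective A _)]
    simp
  rw [h6, h7, Cardinal.toNat_natCast, add_comm] at h5
  exact h5

theorem exists_val {A : Type} [CommRing A] [IsDomain A] [IsDiscreteValuationRing A] {π : A}
    (hπ : Irreducible π) {x : A} {v : ℕ} (h : x ∉ maximalIdeal A ^ (v + 1)) :
    ∃ (w : ℕ) (u : A), w ≤ v ∧ IsUnit u ∧ x = π ^ w * u := by
  have h0 : x ≠ 0 := fun e => h (e ▸ zero_mem _)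
  obtain ⟨w, u, rfl⟩ := IsDiscreteValuationRing.eq_unit_mul_pow_irreducible h0 hπ
  refine ⟨w, u, not_lt.1 fun hw => h ?_, u.isUnit, mul_comm _ _⟩
  rw [hπ.maximalIdeal_eq, Ideal.span_singleton_pow, Ideal.mem_span_singleton]
  exact (pow_dvd_pow π hw).mul_left _

end Pool.Agent.MP_682409_ag.Tor

end
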