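import Pool.Agent.Mg.F682409.Gf29adc
import Pool.Agent.Mg.F53d700.G85e9aa

set_option linter.all false

section

/-! Divisibility by a variable distinguished polynomial. -/

namespace Pool.Agent.MP_682409_ag.Tor

open IsLocalRing Polynomial CategoryTheory Limits AlgebraicGeometry

noncomputable section

namespace WHX

theorem div_mem {B : Type} [CommRing B] (I : Ideal B) (x ν : B[X]) (hν : ν.Monic)
    (hx : ∀ n, x.coeff n ∈ I) (n : ℕ) : (x /ₘ ν).coeff n ∈ I := by
  have h1 : x.map (Ideal.Quotient.mk I) = 0 := by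
    ext k
    rw [coeff_map, coeff_zero]
    exact Ideal.Quotient.eq_zero_iff_mem.mpr (hx k)
  have h2 := congrArg (fun p => coeff p n) (map_divByMonic (p := x) (Ideal.Quotient.mk I) hν)
  simp only [h1, zero_divByMonic, coeff_map, coeff_zero] at h2
  exact Ideal.Quotient.eq_zero_iff_mem.mp h2

theorem sub_mem {B : Type} [CommRing B] (I : Ideal B) (x ν : B[X]) (d : ℕ) (hν : ν.Monic)
    (hd : ∀ n, (ν - X ^ d).coeff n ∈ I) (hx : ∀ n, x.coeff n ∈ I) (j : ℕ) (hj : j < d) :
    x.coeff j - (x %ₘ ν).coeff j ∈ I ^ 2 := by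
  have h1 : x - x %ₘ ν = (ν - X ^ d) * (x /ₘ ν) + X ^ d * (x /ₘ ν) := by
    have := modByMonic_add_div x ν
    linear_combination -this
  rw [← coeff_sub, h1, coeff_add, coeff_X_pow_mul', if_neg (by omega), add_zero, coeff_mul, pow_two]
  exact Ideal.sum_mem _ fun c _ => Ideal.mul_mem_mul (hd _) (div_mem I x ν hν hx _)

theorem eval_dvd {A : Type} [CommRing A] (π : A) (ι : Type) (z : ι → A) (hz : ∀ γ, π ∣ z γ)
    (f : MvPolynomial ι A) (hf : f ∈ mm π ι) : π ∣ MvPolynomial.eval z f := by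
  have h : mm π ι ≤ (Ideal.span {π}).comap (MvPolynomial.eval z) := by
    refine Ideal.span_le.mpr ?_
    rintro g (rfl | ⟨γ, rfl⟩)
    · simp
    · simpa [Ideal.mem_span_singleton] using hz γ
  exact Ideal.mem_span_singleton.mp (h hf)

end WHX

theorem sWH (h : SMH) : SWH := by
  intro A _ _ _ _ π hπ κ _ d x ν hν hdeg hd hx hX
  have h2 : ∀ γ : κ × Fin d, (x γ.1).coeff γ.2 - (x γ.1 %ₘ ν).coeff γ.2 ∈ mm π (κ × Fin d) ^ 2 :=
    fun γ => WHX.sub_mem _ _ ν d hν hd (hx γ.1) γ.2 γ.2.isLt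
  obtain ⟨z, hz, hF⟩ := h A π hπ (κ × Fin d) (fun γ => (x γ.1 %ₘ ν).coeff γ.2)
    (fun γ => by
      have h3 := Ideal.sub_mem _ (hx γ.1 γ.2) (Ideal.pow_le_self two_ne_zero (h2 γ))
      rwa [sub_sub_cancel] at h3)
    (fun γ => by
      refine SetLike.le_def.mp (sup_le (sup_le ?_ ?_) le_sup_right) (hX γ)
      · exact le_sup_of_le_left le_sup_left
      · refine Ideal.span_le.mpr ?_
        rintro g ⟨c, rfl⟩
        have h3 : (x c.1).coeff c.2 = (x c.1 %ₘ ν).coeff c.2 +
            ((x c.1).coeff c.2 - (x c.1 %ₘ ν).coeff c.2) := by ring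
        show (x c.1).coeff c.2 ∈ _
        rw [h3]
        exact Ideal.add_mem _ (Ideal.mem_sup_left (Ideal.mem_sup_right
          (Ideal.subset_span ⟨c, rfl⟩))) (Ideal.mem_sup_right (h2 c)))
  refine ⟨z, hz, fun i => ?_⟩
  have h3 : (x i %ₘ ν).map (MvPolynomial.eval z) = 0 := by
    ext j
    rw [coeff_map, coeff_zero]
    by_cases hj : j < d
    · exact hF (i, ⟨j, hj⟩)
    · have h4 := degree_modByMonic_lt (x i) hν
      rw [degree_eq_natDegree hν.ne_zero, hdeg] at h4
      rw [coeff_eq_zero_of_degree_lt (lt_of_lt_of_le h4 (by exact_mod_cast not_lt.mp hj)), map_zero]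
  obtain ⟨Q, hQ⟩ : C π ∣ (x i /ₘ ν).map (MvPolynomial.eval z) := by
    rw [C_dvd_iff_dvd_coeff]
    intro n
    rw [coeff_map]
    exact WHX.eval_dvd π _ z hz _ (WHX.div_mem _ _ ν hν (hx i) n)
  refine ⟨Q, ?_⟩
  have h5 := congrArg (Polynomial.map (MvPolynomial.eval z)) (modByMonic_add_div (x i) ν)
  rw [Polynomial.map_add, Polynomial.map_mul, h3, zero_add, hQ] at h5
  exact h5.symm

end

end Pool.Agent.MP_682409_ag.Tor

end

section

/-! Weierstrass factorisation over a henselian discrete valuation ring. -/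

namespace Pool.Agent.MP_682409_ag.Tor

open IsLocalRing Polynomial CategoryTheory Limits AlgebraicGeometry

noncomputable section

namespace FactX

theorem inv_mod {A : Type} [CommRing A] [Nontrivial A] (c : A[X]) (hc : IsUnit (c.coeff 0))
    (d j : ℕ) : ∃ n e : A[X], n.degree < d ∧ c * n = -X ^ j + X ^ d * e := by
  have h1 : IsCoprime c X := by
    obtain ⟨u, hu⟩ := hc.exists_left_inv
    refine ⟨C u, -(C u * c.divX), ?_⟩
    have h2 := X_mul_divX_add c
    have h3 : C u * C (c.coeff 0) = 1 := by rw [← C_mul, hu, C_1]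
    linear_combination (-C u) * h2 + h3
  obtain ⟨a, b, hab⟩ := h1.pow_right (n := d)
  have hm : (X ^ d : A[X]).Monic := monic_X_pow d
  refine ⟨(-(a * X ^ j)) %ₘ X ^ d, b * X ^ j - c * ((-(a * X ^ j)) /ₘ X ^ d), ?_, ?_⟩
  · simpa using degree_modByMonic_lt (-(a * X ^ j)) hm
  · have h2 := modByMonic_add_div (-(a * X ^ j)) (X ^ d : A[X])
    linear_combination c * h2 - X ^ j * hab

end FactX

theorem sFact (h : SWH) : SFact := by
  intro A _ _ _ _ π hπ P c d hc ⟨P₁, hP⟩
  choose n e hn hne using fun j : Unit × Fin d => FactX.inv_mod c hc d j.2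
  set ι : A →+* MvPolynomial (Unit × Fin d) A := MvPolynomial.C with hι
  set μ : (MvPolynomial (Unit × Fin d) A)[X] :=
    ∑ j, C (MvPolynomial.X j) * (n j).map ι with hμ
  have hdeg : μ.degree < d := by
    refine (degree_sum_le _ _).trans_lt ((Finset.sup_lt_iff (WithBot.bot_lt_coe d)).2 fun j _ => ?_)
    rw [← smul_eq_C_mul]
    exact (degree_smul_le _ _).trans_lt (degree_map_le.trans_lt (hn j))
  have hmon : (X ^ d + μ).Monic := monic_X_pow_add hdeg
  have hnat : (X ^ d + μ).natDegree = d := by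
    rw [natDegree_add_eq_left_of_degree_lt (by rwa [degree_X_pow]), natDegree_X_pow]
  have m1 : ι π ∈ mm π (Unit × Fin d) := Ideal.subset_span (Set.mem_insert _ _)
  have m2 : ∀ j, MvPolynomial.X j ∈ mm π (Unit × Fin d) := fun j =>
    Ideal.subset_span (Set.mem_insert_of_mem _ ⟨j, rfl⟩)
  have m3 : μ ∈ (mm π (Unit × Fin d)).map (C : _ →+* (MvPolynomial (Unit × Fin d) A)[X]) :=
    Ideal.sum_mem _ fun j _ => Ideal.mul_mem_right _ _ (Ideal.mem_map_of_mem _ (m2 j))
  have hP' : P = c * X ^ d + C π * P₁ := by linear_combination hP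
  have hx : P.map ι - c.map ι * (X ^ d + μ) = C (ι π) * P₁.map ι - c.map ι * μ := by
    rw [hP', Polynomial.map_add, Polynomial.map_mul, Polynomial.map_mul, Polynomial.map_pow,
      map_X, map_C]
    ring
  have hcμ : c.map ι * μ =
      -∑ j : Unit × Fin d, C (MvPolynomial.X j : MvPolynomial (Unit × Fin d) A) * X ^ (j.2 : ℕ) +
      X ^ d * ∑ j, C (MvPolynomial.X j) * (e j).map ι := by
    rw [hμ, Finset.mul_sum, Finset.mul_sum, ← Finset.sum_neg_distrib, ← Finset.sum_add_distrib]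
    refine Finset.sum_congr rfl fun j _ => ?_
    have h1 := congrArg (Polynomial.map ι) (hne j)
    rw [Polynomial.map_mul, Polynomial.map_add, Polynomial.map_neg, Polynomial.map_mul,
      Polynomial.map_pow, Polynomial.map_pow, map_X] at h1
    linear_combination C (MvPolynomial.X j) * h1
  obtain ⟨z, hz, hQ⟩ := h A π hπ Unit d (fun _ => P.map ι - c.map ι * (X ^ d + μ)) (X ^ d + μ)
    hmon hnat (by
      rw [add_sub_cancel_left]
      exact Ideal.mem_map_C_iff.1 m3) (by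
      intro _
      rw [hx]
      exact Ideal.mem_map_C_iff.1 (Ideal.sub_mem _
        (Ideal.mul_mem_right _ _ (Ideal.mem_map_of_mem _ m1)) (Ideal.mul_mem_left _ _ m3))) (by
      intro γ
      refine Ideal.mem_sup_left ?_
      have h1 : (P.map ι - c.map ι * (X ^ d + μ)).coeff γ.2 =
          ι π * (P₁.map ι).coeff γ.2 + MvPolynomial.X γ := by
        rw [hx, hcμ, coeff_sub, coeff_C_mul, coeff_add, coeff_neg, coeff_X_pow_mul',
          if_neg (not_le.2 γ.2.2), finsetSum_coeff, Finset.sum_eq_single γ]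
        · simp
        · intro j _ hj
          rw [coeff_C_mul, coeff_X_pow, if_neg, mul_zero]
          exact fun h2 => hj (Prod.ext rfl (Fin.ext h2.symm))
        · simp
      have h2 : MvPolynomial.X γ = -(ι π * (P₁.map ι).coeff γ.2) +
          (P.map ι - c.map ι * (X ^ d + μ)).coeff γ.2 := by
        rw [h1]
        ring
      rw [h2]
      exact Ideal.add_mem _ (Ideal.mem_sup_left (neg_mem (Ideal.mul_mem_right _ _
        (Ideal.subset_span rfl)))) (Ideal.mem_sup_right (Ideal.subset_span ⟨γ, rfl⟩)))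
  obtain ⟨Q, hQ⟩ := hQ ()
  have hev : ∀ f : A[X], (f.map ι).map (MvPolynomial.eval z) = f := fun f => by
    rw [Polynomial.map_map]
    have : (MvPolynomial.eval z).comp ι = RingHom.id A := RingHom.ext fun a => by simp [hι]
    rw [this, Polynomial.map_id]
  refine ⟨(X ^ d + μ).map (MvPolynomial.eval z), c + C π * Q, hmon.map _,
    (hmon.natDegree_map _).trans hnat, ?_, ?_, ?_⟩
  · rw [Polynomial.map_add, Polynomial.map_pow, map_X, add_sub_cancel_left, hμ,
      Polynomial.map_sum]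
    refine Finset.dvd_sum fun j _ => ?_
    rw [Polynomial.map_mul, map_C, MvPolynomial.eval_X]
    exact (map_dvd C (hz j)).mul_right _
  · rw [coeff_add, coeff_C_mul]
    by_contra h1
    have h2 : π * Q.coeff 0 ∈ maximalIdeal A :=
      Ideal.mul_mem_right _ _ ((mem_maximalIdeal _).2 hπ.not_isUnit)
    have h3 := Ideal.sub_mem _ ((mem_maximalIdeal _).2 h1) h2
    rw [add_sub_cancel_right] at h3
    exact (mem_maximalIdeal _).1 h3 hc
  · rw [Polynomial.map_sub, Polynomial.map_mul, hev, hev] at hQ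
    linear_combination hQ

end

end Pool.Agent.MP_682409_ag.Tor

end

section

/-! Summation of the threefold lemma over the curves of the torsion relation. -/

namespace Pool.Agent.MP_682409_ag.Tor

open IsLocalRing Polynomial CategoryTheory Limits AlgebraicGeometry

noncomputable section

namespace SumX

variable {A O L : Type} [CommRing A] [IsDomain A] [IsDiscreteValuationRing A] [CommRing O]
  [IsLocalRing O] [Field L] {X : Fr0 A} {g : A →+* O} {o : O →+* L} {b : L}

theorem cl_ext (F : X.Facts) (hD : Dat g o) {z : X.P} {j : X.κ z →+* L}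
    (hj : j.comp (X.s z) = o.comp g) {E : Type} [Field E] (ι : L →+* E) (hι : ι.Finite)
    (hb : b ≠ 0) : X.cl (ι.comp j) (ι.comp o) (ι b) = (fdeg ι : ℤ) • X.cl j o b := by
  rw [pfn_all A X F L E O z j ι o (hj ▸ hD.fg.1) (hj ▸ hD.dl_eq) hι (ι b) (by simpa using hb),
    norm_map, ← zpow_natCast, Fr0.cl_zpow]

/-- The class attached to a point of the base change. -/
def Cl (C : CS X (o.comp g)) (b : L) (w : C.P) : X.P → ℤ :=
  X.cl (C.j w) ((C.s w).comp o) (C.s w b)

variable (C : CS X (o.comp g))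

theorem term (F : X.Facts) (hD : Dat g o) (hb : b ≠ 0) {z w : C.P} (hz : C.cu z) (hw : C.cl w)
    (hs : C.sp z w) (p : Over (C.Γ z w)) (h : ∀ x, C.s z x ∈ p.1.1) :
    (redH (C.s z) p.1.1 h).Finite ∧ ∀ y j', X.Cen (C.j z) p.1.1 y j' →
      (fdeg p.1.2 : ℤ) • Cl C b w =
        X.cl j' ((redH (C.s z) p.1.1 h).comp o) (redH (C.s z) p.1.1 h b) := by
  have hf := (C.adm z w hz hw hs).cv.res_finite p
  have e0 : redH (C.s z) p.1.1 h = p.1.2.comp (C.s w) := RingHom.ext fun x => by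
    obtain ⟨_, e⟩ := p.2 _ (C.base z w hs x)
    exact e.symm
  rw [e0]
  refine ⟨hf.comp (C.fin w hw), fun y j' hc => ?_⟩
  have e1 : (C.j w).comp (X.s (C.pr w)) = ((C.s w).comp o).comp g := C.comp w
  have e2 := cl_ext F (hD.ext _ (C.fin w hw)) e1 p.1.2 hf ((map_ne_zero (C.s w)).2 hb)
  exact e2.symm.trans (congrArg (fun q : Σ y, X.κ y →+* ResidueField p.1.1 =>
    X.cl q.2 (p.1.2.comp ((C.s w).comp o)) (p.1.2 (C.s w b))) (F.cen_uniq (C.xc z w hs p) hc))

omit [IsDomain A] [IsDiscreteValuationRing A] [IsLocalRing O] in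
theorem key {z : C.P} (hz : C.cu z) (ω : ValuationSubring (C.κ z)) : ∃ (w : C.P) (n : ℤ),
    ((∀ x, C.s z x ∈ ω) → ω ≠ ⊤ → C.cl w ∧ C.sp z w ∧ ∃ p : Over (C.Γ z w), p.1.1 = ω) ∧
    ∀ w', C.cl w' → C.sp z w' → ∀ p : Over (C.Γ z w'), p.1.1 = ω → w = w' ∧ n = fdeg p.1.2 := by
  by_cases h : (∀ x, C.s z x ∈ ω) ∧ ω ≠ ⊤
  · obtain ⟨w, hw, hs, p, rfl⟩ := C.cen z hz ω h.1 h.2
    refine ⟨w, fdeg p.1.2, fun _ _ => ⟨hw, hs, p, rfl⟩, fun w' _ hs' p' e => ?_⟩
    obtain rfl := C.uniq z w w' hs hs' p p' e.symm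
    obtain rfl := over_ext (C.adm z w hz hw hs).cv.graph.surj e
    exact ⟨rfl, rfl⟩
  · refine ⟨z, 0, fun h1 h2 => absurd ⟨h1, h2⟩ h, fun w' hw' hs' p e => absurd ?_ h⟩
    subst e
    have := (C.adm z w' hz hw' hs').cv.dvr p
    exact ⟨fun x => (p.2 _ (C.base z w' hs' x)).1, V1.ne_top _⟩

open Classical in
theorem curve [HenselianLocalRing A] (h : STG) {π : A} (hπ : Irreducible π) (F : X.Facts)
    (hD : Dat g o) (hb0 : b ≠ 0) (hb : ∀ V ∈ VV (g π) o, b ∈ Uv V (o (g π))) {z : C.P}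
    (hz : C.cu z) {a : C.κ z} (ha : a ≠ 0) : ∃ T : Finset C.P, (∀ w ∈ T, C.cl w) ∧
      ∀ T' : Finset C.P, T ⊆ T' → (∀ w ∈ T', C.cl w) →
        ∑ w ∈ T', (if C.sp z w then ordG (C.Γ z w) a else 0) • Cl C b w ∈ X.Rat := by
  choose c n h1 h2 using key C hz
  obtain ⟨t, ht, hfin⟩ := C.tr z hz
  obtain ⟨S, hS1, hS2, hS⟩ := h A π hπ X F O L (C.κ z) g o (C.s z) t (C.pr z) (C.j z) b a
    (fun ω => n ω • Cl C b (c ω)) hD (C.comp z) ht hfin hb0 ha hb fun ω hω hω' => by
      obtain ⟨hw, hs, p, e⟩ := h1 ω hω hω'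
      have e2 := (h2 ω _ hw hs p e).2
      generalize c ω = w at hw hs p e e2
      subst e
      rw [e2]
      exact term C F hD hb0 hz hw hs p hω
  have hc := fun ω hω => h1 ω (hS1 ω hω).1 (hS1 ω hω).2
  refine ⟨S.image c, fun w hw => ?_, fun T' hT hT' => ?_⟩
  · obtain ⟨ω, hω, rfl⟩ := Finset.mem_image.1 hw
    exact (hc ω hω).1
  rw [← Finset.sum_fiberwise_of_maps_to (g := c) (t := T')
    fun ω hω => hT (Finset.mem_image_of_mem c hω)] at hS
  convert hS using 2 with w hw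
  have e : (if C.sp z w then ordG (C.Γ z w) a else 0) = ∑ ω ∈ S with c ω = w,
      (dv ((C.s z).comp (o.comp g)) ω : ℤ) * vz ω a * n ω := by
    split_ifs with hs
    · have ad := C.adm z w hz (hT' w hw) hs
      have := ad.cv.over_finite
      have := Fintype.ofFinite (Over (C.Γ z w))
      have e1 : ∀ p : Over (C.Γ z w), (wt _ p * fdeg p.1.2 : ℤ) * vz p.1.1 a =
          (dv ((C.s z).comp (o.comp g)) p.1.1 : ℤ) * vz p.1.1 a * n p.1.1 := fun p => by
        rw [(h2 _ w (hT' w hw) hs p rfl).2, (dv_stmt A _ _).1 _ _ p ad]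
        ring
      rw [ordG, finsum_eq_sum_of_fintype]
      refine Finset.sum_bij_ne_zero (fun p _ _ => p.1.1) (fun p _ e2 => ?_)
        (fun p _ _ p' _ _ e2 => over_ext ad.cv.graph.surj e2) (fun ω hω e2 => ?_)
        fun p _ _ => e1 p
      · have := ad.cv.dvr p
        exact Finset.mem_filter.2 ⟨hS2 _ (fun x => (p.2 _ (C.base z w hs x)).1) (V1.ne_top _)
          (right_ne_zero_of_mul e2), (h2 _ w (hT' w hw) hs p rfl).1⟩
      · obtain ⟨hω', rfl⟩ := Finset.mem_filter.1 hω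
        obtain ⟨-, -, p, e3⟩ := hc ω hω'
        exact ⟨p, Finset.mem_univ _, by rw [e1, e3]; exact e2, e3⟩
    · refine (Finset.sum_eq_zero fun ω hω => absurd ?_ hs).symm
      obtain ⟨hω', rfl⟩ := Finset.mem_filter.1 hω
      exact (hc ω hω').2.1
  rw [e, Finset.sum_smul]
  refine Finset.sum_congr rfl fun ω hω => ?_
  rw [(Finset.mem_filter.1 hω).2, smul_smul]

end SumX

open SumX in
theorem sSum (h : STG) : SSum := by
  intro A _ _ _ _ π hπ X F N hC O L _ _ _ g o z₀ j₀ hD hj b hb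
  classical
  rcases eq_or_ne b 0 with rfl | hb0
  · rw [Fr0.cl_zero, smul_zero]
    exact zero_mem _
  obtain ⟨C, w₀, Z, a, hw₀, hbij, hpt, hZ, hrel⟩ := hC L (o.comp g) z₀ j₀ hD.hor hD.fg.1 hj
  choose T hT hT' using fun z : Z => curve C h hπ F hD hb0 hb (hZ z z.2).1 (hZ z z.2).2
  have hW : ∀ w ∈ insert w₀ (Finset.univ.biUnion T), C.cl w := fun w hw => by
    rcases Finset.mem_insert.1 hw with rfl | hw
    · exact hw₀
    · obtain ⟨z, -, hz⟩ := Finset.mem_biUnion.1 hw
      exact hT z w hz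
  have h1 := sum_mem (S := X.Rat) (t := Finset.univ) fun (z : Z) _ => hT' z _
    ((Finset.subset_biUnion_of_mem T (Finset.mem_univ z)).trans (Finset.subset_insert _ _)) hW
  have h0 : Cl C b w₀ = X.cl j₀ o b := by
    have h3 := cl_ext F hD hj (C.s w₀) (RingHom.Finite.of_surjective _ hbij.2) hb0
    rw [fdeg_bij hbij, Nat.cast_one, one_smul] at h3
    exact (congrArg (fun q : Σ y, X.κ y →+* C.κ w₀ =>
      X.cl q.2 ((C.s w₀).comp o) (C.s w₀ b)) hpt).trans h3
  have h2 : ∀ w ∈ insert w₀ (Finset.univ.biUnion T),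
      ∑ z : Z, (if C.sp z w then ordG (C.Γ z w) (a z) else 0) • Cl C b w =
        (if w = w₀ then (N : ℤ) else 0) • Cl C b w := fun w hw => by
    rw [← Finset.sum_smul]
    by_cases hδ : X.δ (C.pr w) ≤ 1
    · have e : Cl C b w = 0 := deg_all A π hπ X F O _ g _ _ _ (hD.ext _ (C.fin w (hW w hw)))
        (C.comp w) hδ _ fun V ⟨e1, e2, x, hx, e3⟩ => TG.Uv_comap _ V
          (hb _ ⟨e1, (val_comap_lt _ V _).2 e2, x, hx, (val_comap_eq _ V _).2 e3⟩)
      rw [e, smul_zero, smul_zero]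
    · rw [← hrel w (hW w hw) hδ, ← Finset.sum_coe_sort Z]
  rw [Finset.sum_comm, Finset.sum_congr rfl h2] at h1
  simp only [ite_smul, zero_smul, Finset.sum_ite_eq', Finset.mem_insert_self, if_true, h0] at h1
  exact h1

end

end Pool.Agent.MP_682409_ag.Tor

end
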