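import Pool.Agent.Mg.F53d700.G237702
import Pool.Agent.MP_682409_ag.Tor.D
import Pool.Agent.Mg.F53d700.G0df9bc

set_option linter.all false

section

/-! Block statements. See 682409_h57_TORS.md in the team store. -/

namespace Pool.Agent.MP_682409_ag.Tor

open IsLocalRing Polynomial CategoryTheory Limits AlgebraicGeometry

noncomputable section

/-! ### Hensel lemmas -/

/-- The ideal generated by `π` and the variables. -/
def mm {A : Type} [CommRing A] (π : A) (ι : Type) : Ideal (MvPolynomial ι A) :=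
  Ideal.span (insert (MvPolynomial.C π) (Set.range MvPolynomial.X))

/-- Hensel's lemma for `n` equations in `n` unknowns. -/
def SMH : Prop :=
  ∀ (A : Type) [CommRing A] [IsDomain A] [IsDiscreteValuationRing A] [HenselianLocalRing A]
    (π : A), Irreducible π → ∀ (ι : Type) [Fintype ι] (F : ι → MvPolynomial ι A),
    (∀ γ, F γ ∈ mm π ι) →
    (∀ γ, MvPolynomial.X γ ∈ Ideal.span {MvPolynomial.C π} ⊔ Ideal.span (Set.range F) ⊔
      mm π ι ^ 2) →
    ∃ z : ι → A, (∀ γ, π ∣ z γ) ∧ ∀ γ, MvPolynomial.eval z (F γ) = 0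

/-- Divisibility by a variable distinguished polynomial. -/
def SWH : Prop :=
  ∀ (A : Type) [CommRing A] [IsDomain A] [IsDiscreteValuationRing A] [HenselianLocalRing A]
    (π : A), Irreducible π → ∀ (κ : Type) [Fintype κ] (d : ℕ)
    (x : κ → (MvPolynomial (κ × Fin d) A)[X]) (ν : (MvPolynomial (κ × Fin d) A)[X]),
    ν.Monic → ν.natDegree = d → (∀ n, (ν - X ^ d).coeff n ∈ mm π (κ × Fin d)) →
    (∀ i n, (x i).coeff n ∈ mm π (κ × Fin d)) →
    (∀ γ, MvPolynomial.X γ ∈ Ideal.span {MvPolynomial.C π} ⊔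
      Ideal.span (Set.range fun γ : κ × Fin d => (x γ.1).coeff γ.2) ⊔ mm π (κ × Fin d) ^ 2) →
    ∃ z : κ × Fin d → A, (∀ γ, π ∣ z γ) ∧ ∀ i, ∃ Q : A[X],
      (x i).map (MvPolynomial.eval z) = ν.map (MvPolynomial.eval z) * (C π * Q)

/-- Weierstrass factorisation. -/
def SFact : Prop :=
  ∀ (A : Type) [CommRing A] [IsDomain A] [IsDiscreteValuationRing A] [HenselianLocalRing A]
    (π : A), Irreducible π → ∀ (P c : A[X]) (d : ℕ), IsUnit (c.coeff 0) →
    C π ∣ P - c * X ^ d → ∃ ν ω : A[X], ν.Monic ∧ ν.natDegree = d ∧ C π ∣ ν - X ^ d ∧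
      IsUnit (ω.coeff 0) ∧ P = ν * ω

/-- Norms in a free algebra. -/
def SNm : Prop :=
  ∀ (R S : Type) [CommRing R] [CommRing S] [Algebra R S] (q : ℕ) (β : Module.Basis (Fin q) R S),
    (∀ G : S, G ∣ algebraMap R S (Algebra.norm R G)) ∧
    (∀ (I : Ideal R) (x : S), x ∈ I.map (algebraMap R S) → ∀ i, β.repr x i ∈ I) ∧
    ∀ (I : Ideal R) (G : S) (g : R), G - algebraMap R S g ∈ I.map (algebraMap R S) →
      Algebra.norm R G - g ^ q ∈ I

/-- Decomposition. -/
def SDec : Prop :=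
  ∀ (A : Type) [CommRing A] [IsDomain A] [IsDiscreteValuationRing A] [HenselianLocalRing A]
    (π : A), Irreducible π → ∀ (S : Type) [CommRing S] [Algebra A[X] S] (q : ℕ)
    (β : Module.Basis (Fin q) A[X] S) (f₁ y₁ : S) (c : A[X]) (m d : ℕ), 0 < q → 0 < m →
    IsUnit (c.coeff 0) → f₁ = algebraMap A[X] S (c * X ^ m) + algebraMap A[X] S (C π) * y₁ →
    ∃ ν : A[X], ν.Monic ∧ C π ∣ ν - X ^ ν.natDegree ∧ ∀ x : S,
      ∃ (u w y y' : S) (r : Fin q → A[X]), (∀ i, (r i).degree < ν.natDegree) ∧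
        algebraMap A[X] S ν * u = f₁ * ∑ i, r i • β i ∧
        x = u + f₁ * w + algebraMap A[X] S (C π) * y + algebraMap A[X] S (X ^ d) * y'

/-- The algebraic core of the divisibility lemma. -/
def SCore : Prop :=
  ∀ (A : Type) [CommRing A] [IsDomain A] [IsDiscreteValuationRing A] [HenselianLocalRing A]
    (π : A), Irreducible π → ∀ (S : Type) [CommRing S] [Algebra A[X] S] (q : ℕ)
    (_ : Module.Basis (Fin q) A[X] S) (N v k : ℕ) (N₀ : A) (c : A[X]) (s₁ : S)
    (W : AddSubgroup S), IsUnit N₀ → (N : A) = π ^ v * N₀ → IsUnit (c.coeff 0) →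
    (∀ (a : A), ∀ u ∈ W, algebraMap A[X] S (C a) * u ∈ W) →
    (∀ x : S, ∃ u ∈ W, ∃ b y y' : S, x = u + algebraMap A[X] S (c * X ^ k) ^ (N - 1) * b +
      algebraMap A[X] S (C π) * y + algebraMap A[X] S (X ^ (k * N * q)) * y') →
    ∃ u ∈ W, ∃ (b y : S) (ω : A[X]), IsUnit (ω.coeff 0) ∧
      (algebraMap A[X] S (c * X ^ k) ^ N + algebraMap A[X] S (C π) ^ (2 * v + 1) * (s₁ + u)) *
        (algebraMap A[X] S ω - algebraMap A[X] S (C π) * y) =
      algebraMap A[X] S ω *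
        (algebraMap A[X] S (c * X ^ k) + algebraMap A[X] S (C π) ^ (v + 1) * b) ^ N

/-- The divisibility lemma at infinity. -/
def SDiv : Prop :=
  ∀ (A : Type) [CommRing A] [IsDomain A] [IsDiscreteValuationRing A] [HenselianLocalRing A]
    (π : A), Irreducible π → ∀ (L : Type) [Field L] (f : A →+* L) (τ : L) (o : Oi A →+* L)
    (N v n : ℕ) (N₀ : A) (s : L), τ ≠ 0 → OiAt f τ⁻¹ o → Dat (gI A) o → IsUnit N₀ →
    (N : A) = π ^ v * N₀ → o.IsIntegralElem s → 1 + f π ^ (2 * v + 1) * s * τ ^ n ≠ 0 →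
    ∃ φ e h : L, (1 + f π ^ (2 * v + 1) * s * τ ^ n) * φ * e = h ^ N ∧
      (∀ V : ValuationSubring L, (∀ a, f a ∈ V) → V.valuation (f π) < 1 → τ ∈ V →
        V.valuation φ = 1) ∧
      (∀ V : ValuationSubring L, (∀ x, o x ∈ V) → V.valuation e = 1) ∧
      ∀ V ∈ VV (gI A π) o, h ∈ Uv V (f π)

/-! ### Torsion -/

/-- `N` kills the classes of level one. -/
def HN {A : Type} [CommRing A] (X : Fr0 A) (π : A) (N : ℕ) : Prop :=
  ∀ (O L : Type) [CommRing O] [IsLocalRing O] [Field L] (g : A →+* O) (o : O →+* L) (z : X.P)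
    (j : X.κ z →+* L), Dat g o → j.comp (X.s z) = o.comp g → ∀ b : L,
    (∀ V ∈ VV (g π) o, b ∈ Uv V (o (g π))) → (N : ℤ) • X.cl j o b ∈ X.Rat

def SBB : Prop :=
  ∀ (A : Type) [CommRing A] [IsDomain A] [IsDiscreteValuationRing A] [HenselianLocalRing A]
    (π : A), Irreducible π → ∀ (X : Fr0 A), X.Facts → ∀ (N v : ℕ) (N₀ : A), IsUnit N₀ →
    (N : A) = π ^ v * N₀ → HN X π N → X.BB π (2 * v + 1)

/-- The threefold lemma for an arbitrary function. -/
def STG : Prop :=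
  ∀ (A : Type) [CommRing A] [IsDomain A] [IsDiscreteValuationRing A] [HenselianLocalRing A]
    (π : A), Irreducible π → ∀ (X : Fr0 A), X.Facts →
    ∀ (O L E : Type) [CommRing O] [IsLocalRing O] [Field L] [Field E] (g : A →+* O)
    (o : O →+* L) (ι : L →+* E) (t : E) (z : X.P) (j : X.κ z →+* E) (b : L) (a : E)
    (Θ : ValuationSubring E → X.P → ℤ),
    Dat g o → j.comp (X.s z) = ι.comp (o.comp g) →
    (∀ h : L[X], h ≠ 0 → h.eval₂ ι t ≠ 0) →
    FiniteDimensional (Subfield.closure (Set.range ι ∪ {t})) E → b ≠ 0 → a ≠ 0 →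
    (∀ V ∈ VV (g π) o, b ∈ Uv V (o (g π))) →
    (∀ (ω : ValuationSubring E) (h : ∀ x, ι x ∈ ω), ω ≠ ⊤ → (redH ι ω h).Finite ∧
      ∀ y j', X.Cen j ω y j' → Θ ω = X.cl j' ((redH ι ω h).comp o) (redH ι ω h b)) →
    ∃ S : Finset (ValuationSubring E), (∀ ω ∈ S, (∀ x, ι x ∈ ω) ∧ ω ≠ ⊤) ∧
      (∀ ω : ValuationSubring E, (∀ x, ι x ∈ ω) → ω ≠ ⊤ → vz ω a ≠ 0 → ω ∈ S) ∧
      ∑ ω ∈ S, ((dv (ι.comp (o.comp g)) ω : ℤ) * vz ω a) • Θ ω ∈ X.Rat

/-- Curves and closed points of the base change to `L`. -/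
structure CS {A L : Type} [CommRing A] [Field L] (X : Fr0 A) (f : A →+* L) where
  P : Type
  κ : P → Type
  [fld : ∀ z, Field (κ z)]
  s : ∀ w, L →+* κ w
  pr : P → X.P
  j : ∀ w, X.κ (pr w) →+* κ w
  sp : P → P → Prop
  Γ : ∀ z w, Subring (κ z × κ w)
  cu : P → Prop
  cl : P → Prop
  comp : ∀ w, (j w).comp (X.s (pr w)) = (s w).comp f
  fin : ∀ w, cl w → (s w).Finite
  tr : ∀ z, cu z → ∃ t : κ z, (∀ h : L[X], h ≠ 0 → h.eval₂ (s z) t ≠ 0) ∧
    FiniteDimensional (Subfield.closure (Set.range (s z) ∪ {t})) (κ z)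
  cen : ∀ z, cu z → ∀ ω : ValuationSubring (κ z), (∀ x, s z x ∈ ω) → ω ≠ ⊤ →
    ∃ w, cl w ∧ sp z w ∧ ∃ p : Over (Γ z w), p.1.1 = ω
  uniq : ∀ z w w', sp z w → sp z w' → ∀ (p : Over (Γ z w)) (p' : Over (Γ z w')),
    p.1.1 = p'.1.1 → w = w'
  xc : ∀ z w, sp z w → ∀ p : Over (Γ z w), X.Cen (j z) p.1.1 (pr w) (p.1.2.comp (j w))
  base : ∀ z w, sp z w → ∀ x, (s z x, s w x) ∈ Γ z w
  adm : ∀ z w, cu z → cl w → sp z w → Adm ((s z).comp f) (Γ z w)

attribute [instance] CS.fld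

open Classical in
/-- The torsion relation for the point `(z₀, j₀)`. -/
def CS.Rel {A L : Type} [CommRing A] [Field L] {X : Fr0 A} {f : A →+* L} (C : CS X f) (N : ℕ)
    (z₀ : X.P) (j₀ : X.κ z₀ →+* L) : Prop :=
  ∃ (w₀ : C.P) (Z : Finset C.P) (a : ∀ z, C.κ z), C.cl w₀ ∧ Function.Bijective (C.s w₀) ∧
    (⟨C.pr w₀, C.j w₀⟩ : Σ y, X.κ y →+* C.κ w₀) = ⟨z₀, (C.s w₀).comp j₀⟩ ∧
    (∀ z ∈ Z, C.cu z ∧ a z ≠ 0) ∧ ∀ w, C.cl w → ¬X.δ (C.pr w) ≤ 1 →
      ∑ z ∈ Z, (if C.sp z w then ordG (C.Γ z w) (a z) else 0) = if w = w₀ then (N : ℤ) else 0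

def SSum : Prop :=
  ∀ (A : Type) [CommRing A] [IsDomain A] [IsDiscreteValuationRing A] [HenselianLocalRing A]
    (π : A), Irreducible π → ∀ (X : Fr0 A), X.Facts → ∀ N : ℕ,
    (∀ (L : Type) [Field L] (f : A →+* L) (z₀ : X.P) (j₀ : X.κ z₀ →+* L), Function.Injective f →
      FG f → j₀.comp (X.s z₀) = f → ∃ C : CS X f, C.Rel N z₀ j₀) → HN X π N

/-! ### Schemes -/

/-- Closed points, residue fields and local rings of schemes of finite type over a field. -/
def SFt : Prop :=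
  ∀ (L : Type) [Field L] (Y : Scheme.{0}) (q : Y ⟶ Spec (CommRingCat.of L)),
    LocallyOfFiniteType q → ∀ w : Y, (IsClosed {w} ↔ (sK q w).Finite) ∧ FG (sK q w) ∧
      IsNoetherianRing (Y.presheaf.stalk w) ∧
      ∀ (z : Y) (h : z ⤳ w), EFT (sK q z) (ev h).range

/-- Functoriality of residue fields and graphs. -/
def SFn : Prop :=
  (∀ (A : CommRingCat.{0}) (X Y : Scheme.{0}) (p : X ⟶ Spec A) (r : Y ⟶ X) (w : Y),
    (r.residueFieldMap w).hom.comp (sK p (r w)) = sK (r ≫ p) w) ∧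
  (∀ (A B : CommRingCat.{0}) (Y : Scheme.{0}) (q : Y ⟶ Spec B) (φ : A ⟶ B) (w : Y),
    sK (q ≫ Spec.map φ) w = (sK q w).comp φ.hom) ∧
  (∀ (A : CommRingCat.{0}) (Y : Scheme.{0}) (q : Y ⟶ Spec A) (z w : Y), z ⤳ w →
    ∀ a, (sK q z a, sK q w a) ∈ Gr z w) ∧
  ∀ (X Y : Scheme.{0}) (r : Y ⟶ X) (z w : Y), z ⤳ w → ∀ g ∈ Gr (r z) (r w),
    ((r.residueFieldMap z).hom g.1, (r.residueFieldMap w).hom g.2) ∈ Gr z w

/-- Existence and uniqueness of centres on a proper scheme. -/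
def SCen : Prop :=
  ∀ (B : CommRingCat.{0}) (Y : Scheme.{0}) (q : Y ⟶ Spec B), IsProper q → ∀ z : Y,
    (∀ ω : ValuationSubring (Y.residueField z), (∀ x, sK q z x ∈ ω) →
      ∃ w, z ⤳ w ∧ ∃ p : Over (Gr z w), p.1.1 = ω) ∧
    ∀ w w' : Y, z ⤳ w → z ⤳ w' → ∀ (p : Over (Gr z w)) (p' : Over (Gr z w')),
      p.1.1 = p'.1.1 → w = w'

/-- Projective morphisms are proper; rational points of a base change. -/
def SPt : Prop :=
  (∀ (A : CommRingCat.{0}) (X : Scheme.{0}) (p : X ⟶ Spec A), IsProj p → IsProper p) ∧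
  ∀ (A : CommRingCat.{0}) [IsDomain A] (X : Scheme.{0}) (p : X ⟶ Spec A) (L : Type) [Field L]
    (φ : CommRingCat.of (FractionRing A) ⟶ CommRingCat.of L) (z₀ : X)
    (j₀ : X.residueField z₀ →+* L),
    j₀.comp (sK p z₀) = φ.hom.comp (algebraMap A (FractionRing A)) →
    ∃ w₀ : YL (gen p) φ, Function.Bijective (sK (prL (gen p) φ) w₀) ∧
      (⟨(prY (gen p) φ ≫ pullback.fst _ _) w₀,
        ((prY (gen p) φ ≫ pullback.fst _ _).residueFieldMap w₀).hom⟩ :
          Σ y : X, X.residueField y →+* (YL (gen p) φ).residueField w₀) =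
        ⟨z₀, (sK (prL (gen p) φ) w₀).comp j₀⟩

/-- Curves on a scheme of finite type over a finitely generated field. -/
def SCv : Prop :=
  ∀ (A : Type) [CommRing A] [IsDomain A] [IsDiscreteValuationRing A] (L : Type) [Field L]
    (f : A →+* L), FG f → ∀ (Y : Scheme.{0}) (q : Y ⟶ Spec (CommRingCat.of L)),
    LocallyOfFiniteType q → ∀ z : Y, IsCurve q z →
    (∃ t : Y.residueField z, (∀ h : L[X], h ≠ 0 → h.eval₂ (sK q z) t ≠ 0) ∧
      FiniteDimensional (Subfield.closure (Set.range (sK q z) ∪ {t})) (Y.residueField z)) ∧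
    ∀ w : Y, z ⤳ w → ((∃ p : Over (Gr z w), p.1.1 ≠ ⊤) → IsClosed {w}) ∧
      (IsClosed {w} → Adm ((sK q z).comp f) (Gr z w))

/-- From the hypothesis on the scheme to the abstract data. -/
def SBr : Prop :=
  ∀ (A : CommRingCat.{0}) [IsDomain A] [IsDiscreteValuationRing A] (X : Scheme.{0})
    (p : X ⟶ Spec A) (D : FrData p) (N : ℕ), IsProj p → Tors N (gen p) →
    ∀ (L : Type) [Field L] (f : A →+* L) (z₀ : D.fr.P) (j₀ : D.fr.κ z₀ →+* L),
    Function.Injective f → FG f → j₀.comp (D.fr.s z₀) = f → ∃ C : CS D.fr f, C.Rel N z₀ j₀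

/-- The end of the proof, with the explicit level. -/
def SFin : Prop :=
  ∀ (b : Bool) (A : CommRingCat.{0}) [IsDomain A] [IsDiscreteValuationRing A]
    [HenselianLocalRing A] (π : A), Irreducible π → ∀ (X : Scheme.{0}) (p : X ⟶ Spec A) (d m : ℕ),
    (∀ x : X, IsRegularLocalRing (X.presheaf.stalk x)) → Flat p → IsProj p →
    IsIntegral (XK p) → GenSm p d → (∀ x : X, Q.Gersten b d x) → 1 ≤ m →
    (∀ D : FrData p, D.fr.Facts → D.fr.BB π m) → ∀ n, m + 2 * d ≤ n + 1 →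
    Function.Bijective (Q.Hres (Q.KB b d) (Q.inc p (Q.mp A n)) d)

end

end Pool.Agent.MP_682409_ag.Tor

end

section

/-! Hensel's lemma for `n` equations in `n` unknowns. -/

namespace Pool.Agent.MP_682409_ag.Tor

open IsLocalRing Polynomial CategoryTheory Limits AlgebraicGeometry

noncomputable section

namespace MHX

theorem res_aeval {A : Type} [CommRing A] [IsLocalRing A] (a : A) (f : A[X]) :
    residue A (f.eval a) = aeval (residue A a) f := by
  have := aeval_algHom_apply (Algebra.ofId A (ResidueField A)) a f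
  simpa using this.symm

theorem isUnit_of_res {A : Type} [CommRing A] [IsLocalRing A] {a : A}
    (h : IsUnit (residue A a)) : IsUnit a :=
  (isUnit_map_iff (residue A) a).1 h

theorem lift_std {A : Type} [CommRing A] [HenselianLocalRing A] (P : StandardEtalePair A)
    (ψ : P.Ring →ₐ[A] ResidueField A) :
    ∃ φ : P.Ring →ₐ[A] A, (Algebra.ofId A (ResidueField A)).comp φ = ψ := by
  have hx : P.HasMap (ψ P.X) := StandardEtalePair.hasMap_X.map ψ
  obtain ⟨a₀, ha₀⟩ := residue_surjective (R := A) (ψ P.X)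
  have h1 : P.f.eval a₀ ∈ maximalIdeal A := by
    rw [← residue_eq_zero_iff, res_aeval, ha₀]
    exact hx.1
  have h2 : IsUnit (P.f.derivative.eval a₀) := by
    apply isUnit_of_res
    rw [res_aeval, ha₀]
    exact StandardEtalePair.HasMap.isUnit_derivative_f P hx
  obtain ⟨a, ha, haa⟩ := HenselianLocalRing.is_henselian P.f P.monic_f a₀ h1 h2
  have hr : residue A a = ψ P.X := by
    rw [← ha₀, ← sub_eq_zero, ← map_sub, residue_eq_zero_iff]
    exact haa
  have hm : P.HasMap a := by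
    refine ⟨by simpa using ha, ?_⟩
    have : IsUnit (P.g.eval a) := by
      apply isUnit_of_res
      rw [res_aeval, hr]
      exact hx.2
    simpa using this
  refine ⟨P.lift a hm, StandardEtalePair.hom_ext ?_⟩
  rw [AlgHom.comp_apply, StandardEtalePair.lift_X]
  exact hr

theorem lift_etale {A S : Type} [CommRing A] [HenselianLocalRing A] [CommRing S] [Algebra A S]
    [Algebra.Etale A S] (ψ : S →ₐ[A] ResidueField A) :
    ∃ φ : S →ₐ[A] A, ∀ x, residue A (φ x) = ψ x := by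
  have hQ : (RingHom.ker ψ).IsPrime := RingHom.ker_isPrime ψ
  obtain ⟨f, hf, hs⟩ := Algebra.IsEtaleAt.exists_isStandardEtale (R := A) (RingHom.ker ψ)
  have hu : IsUnit (ψ f) := Ne.isUnit hf
  obtain ⟨P⟩ := hs.nonempty_standardEtalePresentation
  let ψ' : Localization.Away f →ₐ[A] ResidueField A := IsLocalization.Away.liftAlgHom f (f := ψ) hu
  obtain ⟨φ, hφ⟩ := lift_std P.P (ψ'.comp P.equivRing.symm.toAlgHom)
  refine ⟨φ.comp (P.equivRing.toAlgHom.comp (IsScalarTower.toAlgHom A S _)), fun x => ?_⟩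
  have := DFunLike.congr_fun hφ (P.equivRing (algebraMap S (Localization.Away f) x))
  simpa [ψ'] using this

/-- Evaluation at the origin of the closed fibre. -/
def ev0 (A : Type) [CommRing A] [IsLocalRing A] (ι : Type) :
    MvPolynomial ι A →ₐ[A] ResidueField A := MvPolynomial.aeval fun _ => 0

theorem ev0_mm {A : Type} [CommRing A] [IsLocalRing A] {π : A} (hπ : π ∈ maximalIdeal A)
    {ι : Type} {G : MvPolynomial ι A} (h : G ∈ mm π ι) : ev0 A ι G = 0 := by
  have : mm π ι ≤ RingHom.ker (ev0 A ι) := by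
    unfold mm
    rw [Ideal.span_le]
    rintro _ (rfl | ⟨γ, rfl⟩)
    · simpa [ev0] using (residue_eq_zero_iff π).2 hπ
    · simp [ev0]
  exact this h

/-- The polynomials which vanish at the origin with their derivative in the direction `v`. -/
def dI (A : Type) [CommRing A] [IsLocalRing A] {ι : Type} [Fintype ι]
    (v : ι → ResidueField A) : Ideal (MvPolynomial ι A) where
  carrier := {G | ev0 A ι G = 0 ∧ ∑ δ, v δ * ev0 A ι (MvPolynomial.pderiv δ G) = 0}
  zero_mem' := by simp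
  add_mem' := fun {a b} ha hb => by
    refine ⟨by rw [map_add, ha.1, hb.1, add_zero], ?_⟩
    simp only [map_add, mul_add, Finset.sum_add_distrib, ha.2, hb.2, add_zero]
  smul_mem' := fun c a ha => by
    refine ⟨by rw [smul_eq_mul, map_mul, ha.1, mul_zero], ?_⟩
    have e : ∀ δ, v δ * ev0 A ι (MvPolynomial.pderiv δ (c • a)) =
        ev0 A ι c * (v δ * ev0 A ι (MvPolynomial.pderiv δ a)) := by
      intro δ
      rw [smul_eq_mul, Derivation.leibniz, smul_eq_mul, smul_eq_mul, map_add, map_mul, map_mul,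
        ha.1]
      ring
    simp only [e, ← Finset.mul_sum, ha.2, mul_zero]

theorem det_ne {A : Type} [CommRing A] [IsLocalRing A] {π : A} (hπ : π ∈ maximalIdeal A)
    {ι : Type} [Fintype ι] [DecidableEq ι] (F : ι → MvPolynomial ι A) (hF : ∀ γ, F γ ∈ mm π ι)
    (hX : ∀ γ, MvPolynomial.X γ ∈ Ideal.span {MvPolynomial.C π} ⊔ Ideal.span (Set.range F) ⊔
      mm π ι ^ 2) :
    (Matrix.of fun i j => ev0 A ι (MvPolynomial.pderiv i (F j))).det ≠ 0 := by
  intro h
  obtain ⟨v, hv, hM⟩ := Matrix.exists_vecMul_eq_zero_iff.2 h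
  have hle : Ideal.span {MvPolynomial.C π} ⊔ Ideal.span (Set.range F) ⊔ mm π ι ^ 2 ≤ dI A v := by
    refine sup_le (sup_le ?_ ?_) ?_
    · rw [Ideal.span_le]
      rintro _ rfl
      exact ⟨ev0_mm hπ (Ideal.subset_span (Set.mem_insert _ _)), by simp⟩
    · rw [Ideal.span_le]
      rintro _ ⟨j, rfl⟩
      exact ⟨ev0_mm hπ (hF j), congrFun hM j⟩
    · rw [pow_two, Ideal.mul_le]
      intro a ha b hb
      refine ⟨by rw [map_mul, ev0_mm hπ ha, zero_mul], Finset.sum_eq_zero fun δ _ => ?_⟩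
      rw [Derivation.leibniz, smul_eq_mul, smul_eq_mul, map_add, map_mul, map_mul,
        ev0_mm hπ ha, ev0_mm hπ hb]
      ring
  apply hv
  funext γ
  have h2 := (hle (hX γ)).2
  rw [Finset.sum_eq_single γ] at h2
  · simpa using h2
  · intro δ _ hδ
    rw [MvPolynomial.pderiv_X_of_ne hδ.symm, map_zero, mul_zero]
  · intro hγ
    exact absurd (Finset.mem_univ γ) hγ

theorem etale_away {A S : Type} [CommRing A] [CommRing S] [Algebra A S] {ι : Type} [Finite ι]
    (P : Algebra.PreSubmersivePresentation A S ι ι) :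
    Algebra.Etale A (Localization.Away P.jacobian) := by
  let Q : Algebra.SubmersivePresentation A (Localization.Away P.jacobian) (Unit ⊕ ι) (Unit ⊕ ι) :=
    { toPreSubmersivePresentation :=
        (Algebra.PreSubmersivePresentation.localizationAway _ P.jacobian).comp P
      jacobian_isUnit := by
        rw [Algebra.PreSubmersivePresentation.comp_jacobian_eq_jacobian_smul_jacobian,
          Algebra.PreSubmersivePresentation.localizationAway_jacobian, Algebra.smul_def]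
        exact (IsLocalization.Away.algebraMap_isUnit _).mul
          (IsLocalization.Away.algebraMap_isUnit _) }
  have := Q.isStandardSmoothOfRelativeDimension (n := 0) (by simp [Algebra.Presentation.dimension])
  infer_instance

theorem hensel {A : Type} [CommRing A] [HenselianLocalRing A] {π : A} (hπ : π ∈ maximalIdeal A)
    {ι : Type} [Fintype ι] (F : ι → MvPolynomial ι A) (hF : ∀ γ, F γ ∈ mm π ι)
    (hX : ∀ γ, MvPolynomial.X γ ∈ Ideal.span {MvPolynomial.C π} ⊔ Ideal.span (Set.range F) ⊔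
      mm π ι ^ 2) :
    ∃ z : ι → A, (∀ γ, z γ ∈ maximalIdeal A) ∧ ∀ γ, MvPolynomial.eval z (F γ) = 0 := by
  classical
  let P := Algebra.PreSubmersivePresentation.naive (R := A) (v := F) id Function.injective_id
  have hk : ∀ a ∈ Ideal.span (Set.range F), ev0 A ι a = 0 := by
    have : Ideal.span (Set.range F) ≤ RingHom.ker (ev0 A ι) := by
      rw [Ideal.span_le]
      rintro _ ⟨j, rfl⟩
      exact ev0_mm hπ (hF j)
    exact fun a ha => this ha
  let ψ₀ : (MvPolynomial ι A ⧸ Ideal.span (Set.range F)) →ₐ[A] ResidueField A :=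
    Ideal.Quotient.liftₐ _ (ev0 A ι) hk
  have hψ₀ : ∀ G, ψ₀ (Ideal.Quotient.mk _ G) = ev0 A ι G := fun G => rfl
  have hJ : IsUnit (ψ₀ P.jacobian) := by
    apply Ne.isUnit
    have e : P.jacobian = Ideal.Quotient.mk _ P.jacobiMatrix.det :=
      P.jacobian_eq_jacobiMatrix_det
    rw [e, hψ₀, AlgHom.map_det]
    have e' : (ev0 A ι).mapMatrix P.jacobiMatrix =
        Matrix.of fun i j => ev0 A ι (MvPolynomial.pderiv i (F j)) := by
      ext i j
      rw [AlgHom.mapMatrix_apply, Matrix.map_apply, Matrix.of_apply,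
        Algebra.PreSubmersivePresentation.jacobiMatrix_apply]
      rfl
    rw [e']
    exact det_ne hπ F hF hX
  have := etale_away P
  obtain ⟨φ, hφ⟩ := lift_etale (A := A) (S := Localization.Away P.jacobian)
    (IsLocalization.Away.liftAlgHom P.jacobian (f := ψ₀) hJ)
  let χ : MvPolynomial ι A →ₐ[A] A :=
    φ.comp ((IsScalarTower.toAlgHom A (MvPolynomial ι A ⧸ Ideal.span (Set.range F))
      (Localization.Away P.jacobian)).comp (Ideal.Quotient.mkₐ A _))
  have hχ : ∀ G, χ G = φ (algebraMap (MvPolynomial ι A ⧸ Ideal.span (Set.range F))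
      (Localization.Away P.jacobian) (Ideal.Quotient.mk _ G)) := fun G => rfl
  refine ⟨fun γ => χ (MvPolynomial.X γ), fun γ => ?_, fun γ => ?_⟩
  · show χ (MvPolynomial.X γ) ∈ maximalIdeal A
    rw [← residue_eq_zero_iff, hχ, hφ]
    simp [hψ₀, ev0]
  · have e : MvPolynomial.eval (fun γ => χ (MvPolynomial.X γ)) (F γ) = χ (F γ) := by
      rw [← MvPolynomial.coe_aeval_eq_eval]
      exact (DFunLike.congr_fun (MvPolynomial.aeval_unique χ) (F γ)).symm
    have hm : F γ ∈ Ideal.span (Set.range F) := Ideal.subset_span ⟨γ, rfl⟩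
    rw [e, hχ, Ideal.Quotient.eq_zero_iff_mem.2 hm, map_zero, map_zero]

end MHX

theorem sMH (_hH : Hen1Stmt) (_hD : DFStmt) : SMH := by
  intro A _ _ _ _ π hπ ι _ F hF hX
  have hm : maximalIdeal A = Ideal.span {π} := hπ.maximalIdeal_eq
  obtain ⟨z, hz, hz'⟩ := MHX.hensel (π := π) (hm ▸ Ideal.mem_span_singleton_self π) F hF hX
  exact ⟨z, fun γ => Ideal.mem_span_singleton.1 (hm ▸ hz γ), hz'⟩

end

end Pool.Agent.MP_682409_ag.Tor

end

section

/-! Norms in a free algebra. -/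

namespace Pool.Agent.MP_682409_ag.Tor

open IsLocalRing Polynomial CategoryTheory Limits AlgebraicGeometry

noncomputable section

namespace NmX

variable {R S : Type} [CommRing R] [CommRing S] [Algebra R S] {q : ℕ}

theorem repr_mem (β : Module.Basis (Fin q) R S) (I : Ideal R) (x : S)
    (hx : x ∈ I.map (algebraMap R S)) : ∀ (y : S) (i : Fin q), β.repr (x * y) i ∈ I := by
  refine Submodule.span_induction (p := fun x _ => ∀ (y : S) (i : Fin q), β.repr (x * y) i ∈ I)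
    ?_ ?_ ?_ ?_ hx
  · rintro _ ⟨a, ha, rfl⟩ y i
    rw [← Algebra.smul_def, map_smul, Finsupp.smul_apply, smul_eq_mul]
    exact I.mul_mem_right _ ha
  · intro y i
    simp
  · intro a b _ _ h1 h2 y i
    rw [add_mul, map_add, Finsupp.add_apply]
    exact I.add_mem (h1 y i) (h2 y i)
  · intro a b _ h y i
    rw [smul_eq_mul, mul_comm a, mul_assoc]
    exact h _ i

theorem dvd_norm (β : Module.Basis (Fin q) R S) (G : S) :
    G ∣ algebraMap R S (Algebra.norm R G) := by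
  refine ⟨β.equivFun.symm ((Algebra.leftMulMatrix β G).adjugate.mulVec (β.repr 1)), ?_⟩
  apply β.repr.injective
  ext i
  have h := congrFun (Algebra.leftMulMatrix_mulVec_repr β G
    (β.equivFun.symm ((Algebra.leftMulMatrix β G).adjugate.mulVec (β.repr 1)))) i
  rw [← h, ← Module.Basis.equivFun_apply β (β.equivFun.symm _), LinearEquiv.apply_symm_apply,
    Matrix.mulVec_mulVec, Matrix.mul_adjugate, Matrix.smul_mulVec, Matrix.one_mulVec,
    Algebra.norm_eq_matrix_det β, Algebra.algebraMap_eq_smul_one, map_smul]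
  rfl

end NmX

theorem sNm : SNm := by
  intro R S _ _ _ q β
  refine ⟨NmX.dvd_norm β, fun I x hx i => by simpa using NmX.repr_mem β I x hx 1 i,
    fun I G g h => ?_⟩
  rw [← Ideal.Quotient.eq, Algebra.norm_eq_matrix_det β, RingHom.map_det]
  have h1 : (Ideal.Quotient.mk I).mapMatrix (Algebra.leftMulMatrix β G) =
      Matrix.diagonal fun _ => Ideal.Quotient.mk I g := by
    ext i j
    have h2 := NmX.repr_mem β I _ h (β j) i
    rw [sub_mul, map_sub, Finsupp.sub_apply, ← Ideal.Quotient.eq, ← Algebra.smul_def, map_smul,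
      Finsupp.smul_apply, β.repr_self] at h2
    rw [RingHom.mapMatrix_apply, Matrix.map_apply, Algebra.leftMulMatrix_eq_repr_mul, h2,
      Matrix.diagonal_apply, Finsupp.single_apply]
    by_cases hij : i = j
    · simp [hij]
    · simp [hij, Ne.symm hij]
  rw [h1, Matrix.det_diagonal, Finset.prod_const, Finset.card_univ, Fintype.card_fin, map_pow]

end

end Pool.Agent.MP_682409_ag.Tor

end

section

namespace Pool.Agent.MP_682409_ag.Tor

open IsLocalRing Polynomial CategoryTheory Limits AlgebraicGeometry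

namespace DecX

theorem coprime {A : Type} [CommRing A] [IsLocalRing A] {π : A} (hπ : ¬IsUnit π) {ν ω : A[X]}
    (hν : ν.Monic) (h : C π ∣ ν - X ^ ν.natDegree) (hω : IsUnit (ω.coeff 0)) : IsCoprime ν ω := by
  have hu : IsUnit (AdjoinRoot.mk ν ω) := by
    by_contra hn
    obtain ⟨M, hM, hmem⟩ := exists_max_ideal_of_mem_nonunits (mem_nonunits_iff.2 hn)
    have := hν.finite_adjoinRoot
    have h1 : (M.comap (algebraMap A (AdjoinRoot ν))).IsMaximal :=
      Ideal.isMaximal_comap_of_isIntegral_of_isMaximal M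
    have h2 : AdjoinRoot.mk ν (C π) ∈ M := by
      have : π ∈ M.comap (algebraMap A (AdjoinRoot ν)) := by
        rw [eq_maximalIdeal h1]
        exact hπ
      exact this
    obtain ⟨g, hg⟩ := h
    have h3 : AdjoinRoot.mk ν X ^ ν.natDegree ∈ M := by
      have e := congrArg (AdjoinRoot.mk ν) hg
      rw [map_sub, AdjoinRoot.mk_self, zero_sub, map_mul, map_pow, neg_eq_iff_eq_neg] at e
      rw [e]
      exact neg_mem (M.mul_mem_right _ h2)
    have h4 := hM.isPrime.mem_of_pow_mem _ h3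
    have h5 : AdjoinRoot.mk ν (C (ω.coeff 0)) ∈ M := by
      have e := congrArg (AdjoinRoot.mk ν) (X_mul_divX_add ω)
      rw [map_add, map_mul] at e
      rw [eq_sub_of_add_eq' e]
      exact sub_mem hmem (M.mul_mem_right _ h4)
    exact hM.ne_top (M.eq_top_of_isUnit_mem h5 ((hω.map C).map _))
  obtain ⟨b, hb⟩ := hu.exists_left_inv
  obtain ⟨b, rfl⟩ := AdjoinRoot.mk_surjective b
  rw [← map_mul, ← map_one (AdjoinRoot.mk ν), AdjoinRoot.mk_eq_mk] at hb
  obtain ⟨a, ha⟩ := hb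
  exact ⟨-a, b, by linear_combination ha⟩

end DecX

theorem sDec (hF : SFact) (hN : SNm) : SDec := by
  intro A _ _ _ _ π hπ S _ _ q β f₁ y₁ c m d hq hm hc hf
  obtain ⟨⟨f₂, hf₂⟩, h3⟩ : f₁ ∣ algebraMap A[X] S (Algebra.norm A[X] f₁) ∧
      C π ∣ Algebra.norm A[X] f₁ - c ^ q * X ^ (m * q) := by
    obtain ⟨n1, -, n3⟩ := hN A[X] S q β
    refine ⟨n1 f₁, ?_⟩
    rw [pow_mul, ← mul_pow, ← Ideal.mem_span_singleton]
    refine n3 _ _ _ ?_
    rw [hf, add_sub_cancel_left]
    exact Ideal.mul_mem_right _ _ (Ideal.mem_map_of_mem _ (Ideal.mem_span_singleton_self _))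
  obtain ⟨ν₀, ω₀, hν₀, hd₀, h4, hω₀, hP⟩ := hF A π hπ _ (c ^ q) (m * q) (by
    rw [← constantCoeff_apply, map_pow]
    exact hc.pow q) h3
  have hco : IsCoprime (ν₀ ^ (d + 1)) (ω₀ ^ (d + 1)) :=
    (DecX.coprime hπ.not_isUnit hν₀ (by rwa [hd₀]) hω₀).pow
  have hdeg : (ν₀ ^ (d + 1)).natDegree = m * q * (d + 1) := by
    rw [hν₀.natDegree_pow, hd₀, mul_comm]
  have h5 : C π ∣ ν₀ ^ (d + 1) - X ^ (ν₀ ^ (d + 1)).natDegree := by
    rw [hdeg, pow_mul]
    exact h4.trans (sub_dvd_pow_sub_pow _ _ _)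
  have h6 : algebraMap A[X] S (ν₀ ^ (d + 1)) * algebraMap A[X] S (ω₀ ^ (d + 1)) =
      f₁ * (f₂ * (f₁ * f₂) ^ d) := by
    rw [← map_mul, ← mul_pow, ← hP, map_pow, hf₂]
    ring
  have h7 : d ≤ (ν₀ ^ (d + 1)).natDegree := by
    rw [hdeg]
    nlinarith [Nat.mul_pos hm hq]
  have hν := hν₀.pow (d + 1)
  generalize ν₀ ^ (d + 1) = ν at hco h5 h6 h7 hν
  generalize ω₀ ^ (d + 1) = ω at hco h6
  generalize f₂ * (f₁ * f₂) ^ d = f₃ at h6
  refine ⟨ν, hν, h5, fun x => ?_⟩
  obtain ⟨al, be, hab⟩ := hco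
  obtain ⟨g, hg⟩ := h5
  obtain ⟨e, he⟩ := Nat.exists_eq_add_of_le h7
  set z := x * f₃ * algebraMap A[X] S be with hz
  have h8 : ∑ i, (β.repr z i %ₘ ν) • β i +
      algebraMap A[X] S ν * ∑ i, (β.repr z i /ₘ ν) • β i = z := by
    rw [← Algebra.smul_def, Finset.smul_sum, ← Finset.sum_add_distrib]
    conv_rhs => rw [← β.sum_repr z]
    refine Finset.sum_congr rfl fun i _ => ?_
    rw [smul_smul, ← add_smul, modByMonic_add_div]
  have h9 := congrArg (algebraMap A[X] S) hab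
  have h10 := congrArg (algebraMap A[X] S) hg
  rw [he, pow_add] at h10
  simp only [map_add, map_mul, map_one, map_sub] at h9 h10
  refine ⟨x * algebraMap A[X] S be * algebraMap A[X] S ω - f₁ * ∑ i, (β.repr z i /ₘ ν) • β i,
    ∑ i, (β.repr z i /ₘ ν) • β i, algebraMap A[X] S al * algebraMap A[X] S g * x,
    algebraMap A[X] S al * algebraMap A[X] S (X ^ e) * x, fun i => β.repr z i %ₘ ν,
    fun i => ?_, ?_, ?_⟩
  · rw [← degree_eq_natDegree hν.ne_zero]
    exact degree_modByMonic_lt _ hν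
  · linear_combination x * algebraMap A[X] S be * h6 - f₁ * h8 - f₁ * hz
  · linear_combination -x * h9 + algebraMap A[X] S al * x * h10

end Pool.Agent.MP_682409_ag.Tor

end

section

/-! The divisibility lemma at infinity. -/

namespace Pool.Agent.MP_682409_ag.Tor

open IsLocalRing Polynomial CategoryTheory Limits AlgebraicGeometry

noncomputable section

namespace DivX

variable {A L : Type} [CommRing A] [IsDomain A] [IsDiscreteValuationRing A] [Field L] {π : A}
  {f : A →+* L} {t τ : L} {o : Oi A →+* L}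

theorem notMem {c : A[X]} : c ∉ mI A ↔ IsUnit (c.coeff 0) := notMem_maximalIdeal

theorem den (h : OiAt f t o) {s : L} (hs : o.IsIntegralElem s) : ∃ c : A[X],
    IsUnit (c.coeff 0) ∧ (eval₂RingHom f t).IsIntegralElem (c.eval₂ f t * s) := by
  classical
  obtain ⟨p, hp, hx⟩ := hs
  choose a b h1 h2 using fun i => OI1.surj (p.coeff i)
  refine ⟨∏ i ∈ Finset.range (p.map o).natDegree, b i,
    notMem.1 (prod_mem (S := (mI A).primeCompl) fun i _ => h1 i),
    OI2.scale _ (hp.map o) (by rwa [← eval₂_eq_eval_map]) _ fun i hi => ?_⟩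
  have hq := congrArg o (h2 i)
  rw [map_mul, h, h] at hq
  obtain ⟨k, hk⟩ : ∃ k, (p.map o).natDegree - i = k + 1 := ⟨_, (Nat.succ_pred (by omega)).symm⟩
  rw [hk, coeff_map]
  refine ⟨a i * (∏ j ∈ (Finset.range (p.map o).natDegree).erase i, b j) *
    (∏ i ∈ Finset.range (p.map o).natDegree, b i) ^ k, ?_⟩
  rw [map_mul, map_mul, coe_eval₂RingHom, ← hq, eval₂_pow, pow_succ', ← mul_assoc,
    ← Finset.mul_prod_erase _ b (Finset.mem_range.2 hi), eval₂_mul]
  ring

omit [IsDomain A] [IsDiscreteValuationRing A] in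
theorem rev (hτ : τ ≠ 0) (V : ValuationSubring L) (hA : ∀ a, f a ∈ V) (hV : τ ∈ V) {r : A[X]}
    {m : ℕ} (hr : r.natDegree ≤ m) : τ ^ m * r.eval₂ f τ⁻¹ ∈ V := by
  have := OI2.refl_inv f (inv_ne_zero hτ) hr
  rw [inv_inv] at this
  rw [mul_comm, this]
  exact OI1.ev_mem V hA hV _

omit [IsDomain A] [IsDiscreteValuationRing A] in
theorem pole (hτ : τ ≠ 0) {P : A[X][X]} (hP : P.Monic) {σ : L}
    (hσ : P.eval₂ (eval₂RingHom f τ⁻¹) σ = 0) : ∃ e : ℕ, ∀ V : ValuationSubring L,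
      (∀ a, f a ∈ V) → τ ∈ V → τ ^ e * σ ∈ V := by
  refine ⟨P.support.sup fun i => (P.coeff i).natDegree, fun V hA hV =>
    root_bound V hV (hP.map (eval₂RingHom f τ⁻¹)) (fun i => ?_) (by rwa [← eval₂_eq_eval_map])⟩
  rw [coeff_map]
  refine rev hτ V hA hV ?_
  by_cases hi : i ∈ P.support
  · exact Finset.le_sup (f := fun i => (P.coeff i).natDegree) hi
  · rw [notMem_support_iff.1 hi, natDegree_zero]
    exact Nat.zero_le _

theorem val_nu (hπ : Irreducible π) (hτ : τ ≠ 0) (V : ValuationSubring L) (hA : ∀ a, f a ∈ V)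
    (hp : V.valuation (f π) < 1) (hV : τ ∈ V) {ν : A[X]} (hν : C π ∣ ν - X ^ ν.natDegree) :
    V.valuation (τ ^ ν.natDegree * ν.eval₂ f τ⁻¹) = 1 := by
  obtain ⟨ν', e⟩ := hν
  have h1 : ν'.natDegree ≤ ν.natDegree := by
    rw [← natDegree_C_mul (p := ν') hπ.ne_zero, ← e]
    exact (natDegree_sub_le _ _).trans (by simp)
  have h2 : τ ^ ν.natDegree * ν.eval₂ f τ⁻¹ = 1 + f π * (τ ^ ν.natDegree * ν'.eval₂ f τ⁻¹) := by
    have h3 := congrArg (eval₂ f τ⁻¹) (eq_add_of_sub_eq e)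
    rw [eval₂_add, eval₂_mul, eval₂_C, eval₂_X_pow] at h3
    rw [h3, mul_add, ← mul_pow, mul_inv_cancel₀ hτ, one_pow]
    ring
  rw [h2]
  exact val_one_add V hp (rev hτ V hA hV h1)

/-- The subgroup of the decomposition. -/
def WW {S : Type} [CommRing S] [Algebra A[X] S] {q : ℕ} (β : Fin q → S) (ν : A[X]) (f₁ : S) :
    AddSubgroup S where
  carrier := {u | ∃ r : Fin q → A[X], (∀ i, (r i).degree < ν.natDegree) ∧
    algebraMap A[X] S ν * u = f₁ * ∑ i, r i • β i}
  zero_mem' := ⟨0, fun _ => by simp, by simp⟩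
  add_mem' := by
    rintro u u' ⟨r, h1, h2⟩ ⟨r', h3, h4⟩
    refine ⟨r + r', fun i => (degree_add_le _ _).trans_lt (max_lt (h1 i) (h3 i)), ?_⟩
    simp only [mul_add, h2, h4, Pi.add_apply, add_smul, Finset.sum_add_distrib]
  neg_mem' := by
    rintro u ⟨r, h1, h2⟩
    refine ⟨-r, fun i => by simpa using h1 i, ?_⟩
    simp only [mul_neg, h2, Pi.neg_apply, neg_smul, Finset.sum_neg_distrib]

omit [IsDomain A] [IsDiscreteValuationRing A] in
theorem WW_mul {S : Type} [CommRing S] [Algebra A[X] S] {q : ℕ} (β : Fin q → S) (ν : A[X])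
    (f₁ : S) (a : A) (u : S) (hu : u ∈ WW β ν f₁) : algebraMap A[X] S (C a) * u ∈ WW β ν f₁ := by
  obtain ⟨r, h1, h2⟩ := hu
  refine ⟨fun i => C a * r i, fun i => ?_, ?_⟩
  · show (C a * r i).degree < _
    rw [← smul_eq_C_mul]
    exact (degree_smul_le _ _).trans_lt (h1 i)
  · rw [mul_left_comm, h2, mul_left_comm, ← Algebra.smul_def, Finset.smul_sum]
    simp only [mul_smul]

end DivX

open DivX in
theorem sDiv (hD : SDec) (hC : SCore) : SDiv := by
  intro A _ _ _ _ π hπ L _ f τ o N v n N₀ s hτ ho hdat hN₀ hN hs ha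
  obtain ⟨c, hc, P, hP, hσ⟩ := den ho hs
  obtain ⟨e0, he0⟩ := pole hτ hP hσ
  have hq : 0 < P.natDegree := by
    refine Nat.pos_of_ne_zero fun h => ?_
    rw [hP.natDegree_eq_zero.1 h, eval₂_one] at hσ
    exact one_ne_zero hσ
  obtain ⟨N', rfl⟩ : ∃ N', N = N' + 1 := by
    refine Nat.exists_eq_succ_of_ne_zero ?_
    rintro rfl
    exact mul_ne_zero (pow_ne_zero v hπ.ne_zero) hN₀.ne_zero (by simpa using hN.symm)
  let β : Module.Basis (Fin P.natDegree) A[X] (AdjoinRoot P) := (AdjoinRoot.powerBasis' hP).basis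
  have hβ : ∀ i, β i = AdjoinRoot.root P ^ (i : ℕ) := (AdjoinRoot.powerBasis' hP).basis_eq_pow
  let ψ := AdjoinRoot.lift (eval₂RingHom f τ⁻¹) _ hσ
  have ψ1 : ∀ a, ψ (algebraMap A[X] (AdjoinRoot P) a) = a.eval₂ f τ⁻¹ := fun a =>
    AdjoinRoot.lift_of hσ
  have ψ2 : ψ (AdjoinRoot.root P) = c.eval₂ f τ⁻¹ * s := AdjoinRoot.lift_root hσ
  have ψ3 : ∀ V : ValuationSubring L, (∀ x, o x ∈ V) → ∀ x, ψ x ∈ V := by
    intro V hV x
    have h1 : ∀ a, eval₂RingHom f τ⁻¹ a ∈ V := fun a => by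
      rw [coe_eval₂RingHom, ← ho a]
      exact hV _
    induction x using AdjoinRoot.induction_on with
    | ih g =>
      rw [AdjoinRoot.lift_mk]
      exact OI1.ev_mem V h1 (mem_of_isIntegralElem h1 ⟨P, hP, hσ⟩) g
  have hu1 : ∀ (V : ValuationSubring L), (∀ x, o x ∈ V) → ∀ w : A[X], IsUnit (w.coeff 0) →
      V.valuation (w.eval₂ f τ⁻¹) = 1 := fun V hV w hw =>
    ho w ▸ OI1.val_unit hV (OI1.unit (notMem.2 hw))
  have hu0 : ∀ w : A[X], IsUnit (w.coeff 0) → w.eval₂ f τ⁻¹ ≠ 0 := fun w hw =>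
    ho w ▸ ((OI1.unit (notMem.2 hw)).map o).ne_zero
  obtain ⟨n0, hn0⟩ : ∃ n0, n0 = e0 * P.natDegree := ⟨_, rfl⟩
  obtain ⟨k, hk⟩ : ∃ k, k = n + n0 + 1 := ⟨_, rfl⟩
  let al := algebraMap A[X] (AdjoinRoot P)
  let y₁ := al (C π) ^ (2 * v) * (al (c ^ N' * X ^ (N' * k + 1)) * AdjoinRoot.root P)
  let f₁ := al (c ^ (N' + 1) * X ^ (N' * k + n + 1)) + al (C π) * y₁
  obtain ⟨ν, -, hν, hdec⟩ := hD A π hπ (AdjoinRoot P) _ β f₁ y₁ (c ^ (N' + 1)) (N' * k + n + 1)
    (k * (N' + 1) * P.natDegree) hq (Nat.succ_pos _)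
    (by simpa [← constantCoeff_apply] using (hc.pow (N' + 1))) rfl
  obtain ⟨u, ⟨r, hr, hu⟩, b, y, ω, hω, hE⟩ := hC A π hπ (AdjoinRoot P) _ β (N' + 1) v k N₀ c
    (al (c ^ N' * X ^ (N' * k + 1 + n0)) * AdjoinRoot.root P) (WW β ν f₁) hN₀ hN hc
    (WW_mul β ν f₁) (fun x => by
      obtain ⟨u, w, y, y', r, h1, h2, h3⟩ := hdec x
      refine ⟨u, ⟨r, h1, h2⟩, al (c * X ^ (n + 1)) * w, y₁ * w + y, y', ?_⟩
      have e : al (c ^ (N' + 1) * X ^ (N' * k + n + 1)) =
          al (c * X ^ k) ^ N' * al (c * X ^ (n + 1)) := by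
        rw [← map_pow, ← map_mul]
        congr 1
        ring
      rw [h3, Nat.add_sub_cancel]
      simp only [f₁, e]
      simp only [al]
      ring)
  have hE' := congrArg ψ hE
  have hu' := congrArg ψ hu
  simp only [map_mul ψ, map_add ψ, map_sub ψ, map_pow ψ, map_sum ψ, f₁, y₁, al, ψ1, ψ2, hβ,
    Algebra.smul_def, eval₂_mul, eval₂_pow, eval₂_X, eval₂_C] at hE' hu'
  have hc0 := hu0 c hc
  have hω0 := hu0 ω hω
  have hcv := fun V hV => hu1 V hV c hc
  have hωv := fun V hV => hu1 V hV ω hω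
  generalize c.eval₂ f τ⁻¹ = γ at hE' hu' hc0 hcv he0
  generalize ω.eval₂ f τ⁻¹ = w at hE' hω0 hωv
  obtain ⟨g, hg⟩ : ∃ g, g = γ * τ⁻¹ ^ k := ⟨_, rfl⟩
  have hg0 : g ≠ 0 := hg ▸ mul_ne_zero hc0 (pow_ne_zero _ (inv_ne_zero hτ))
  obtain ⟨F, hF⟩ : ∃ F, F = (1 + f π ^ (2 * v + 1) * s * τ ^ n) * g ^ (N' + 1) := ⟨_, rfl⟩
  have hF0 : F ≠ 0 := hF ▸ mul_ne_zero ha (pow_ne_zero _ hg0)
  have hτn : ∀ m : ℕ, τ ^ m * τ⁻¹ ^ m = 1 := fun m => by
    rw [← mul_pow, mul_inv_cancel₀ hτ, one_pow]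
  have hF1 : F = g ^ (N' + 1) +
      f π ^ (2 * v + 1) * (γ ^ N' * τ⁻¹ ^ (N' * k + 1 + n0) * (γ * s)) := by
    rw [hF, hg, hk]
    linear_combination (f π ^ (2 * v + 1) * s * γ ^ (N' + 1) *
      τ⁻¹ ^ (N' * (n + n0 + 1) + 1 + n0)) * hτn n
  have hF2 : τ ^ n0 * F = γ ^ (N' + 1) * τ⁻¹ ^ (N' * k + n + 1) +
      f π * (f π ^ (2 * v) * (γ ^ N' * τ⁻¹ ^ (N' * k + 1) * (γ * s))) := by
    rw [hF1, hg, hk]
    linear_combination (γ ^ (N' + 1) * τ⁻¹ ^ (N' * (n + n0 + 1) + n + 1) +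
      f π ^ (2 * v + 1) * (γ ^ N' * τ⁻¹ ^ (N' * (n + n0 + 1) + 1) * (γ * s))) * hτn n0
  rw [← hF2] at hu'
  rw [← hg, mul_add, ← add_assoc, ← hF1] at hE'
  have hpo : o (gI A π) = f π := DFunLike.congr_fun ho.comp_gI π
  have hfo : ∀ V : ValuationSubring L, (∀ x, o x ∈ V) → f π ∈ V := fun V hV => hpo ▸ hV _
  refine ⟨1 + f π * (f π ^ (2 * v) * (ψ u / F)), 1 + f π * (-ψ y / w),
    1 + f π * (f π ^ v * (ψ b / g)), ?_, fun V hA hp hV => ?_, fun V hV => ?_, fun V hV => ?_⟩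
  · have e1 : 1 + f π * (f π ^ v * (ψ b / g)) = (g + f π ^ (v + 1) * ψ b) / g := by
      field_simp
      ring
    have e2 : 1 + f π * (-ψ y / w) = (w - f π * ψ y) / w := by
      field_simp
      ring
    have e3 : 1 + f π * (f π ^ (2 * v) * (ψ u / F)) = (F + f π ^ (2 * v + 1) * ψ u) / F := by
      field_simp
      ring
    have e4 : 1 + f π ^ (2 * v + 1) * s * τ ^ n = F / g ^ (N' + 1) := by
      rw [hF, mul_div_cancel_right₀ _ (pow_ne_zero _ hg0)]
    rw [e1, e2, e3, e4, mul_assoc, div_mul_div_comm, hE', div_pow]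
    field_simp
  · have h1 := val_nu hπ hτ V hA hp hV hν
    have h2 : τ ^ ν.natDegree * ν.eval₂ f τ⁻¹ ≠ 0 := fun h => by simp [h] at h1
    have h3 : ψ u / F = (∑ i, τ ^ ν.natDegree * (r i).eval₂ f τ⁻¹ * (τ ^ n0 * (γ * s) ^ (i : ℕ))) /
        (τ ^ ν.natDegree * ν.eval₂ f τ⁻¹) := by
      rw [div_eq_div_iff hF0 h2, mul_left_comm, mul_comm (ψ u), hu', Finset.sum_mul,
        Finset.mul_sum, Finset.mul_sum]
      exact Finset.sum_congr rfl fun i _ => by ring
    refine val_one_add V hp (mul_mem (pow_mem (hA π) _) ?_)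
    rw [h3]
    refine div_mem_of_val V (sum_mem fun i _ => mul_mem
      (rev hτ V hA hV (natDegree_le_of_degree_le (hr i).le)) ?_) h1
    obtain ⟨j, hj⟩ := Nat.exists_eq_add_of_le (show (i : ℕ) ≤ P.natDegree from i.2.le)
    have h4 : τ ^ n0 * (γ * s) ^ (i : ℕ) = (τ ^ e0 * (γ * s)) ^ (i : ℕ) * τ ^ (e0 * j) := by
      rw [hn0.trans (congrArg (e0 * ·) hj)]
      ring
    rw [h4]
    exact mul_mem (pow_mem (he0 V hA hV) _) (pow_mem hV _)
  · have h1 : ∀ V : ValuationSubring L, (∀ x, o x ∈ V) → -ψ y / w ∈ V := fun V hV =>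
      div_mem_of_val V (neg_mem (ψ3 V hV y)) (hωv V hV)
    refine unit_of_VV hπ hdat.inj (isIntegralElem_of_forall o fun V hV =>
      add_mem (one_mem _) (mul_mem (hfo V hV) (h1 V hV))) (fun V hV => ?_) V hV
    rw [add_sub_cancel_left, map_mul]
    exact mul_lt_one_of_lt_of_le (hpo ▸ hV.2.1) ((V.valuation_le_one_iff _).2 (h1 V hV.1))
  · refine ⟨_, mul_mem (pow_mem (hfo V hV.1) v) (div_mem_of_val V (ψ3 V hV.1 b) ?_), rfl⟩
    rw [hg, map_mul, map_pow, hcv V hV.1, ho.val_eq_one hπ hV, one_pow, mul_one]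

end

end Pool.Agent.MP_682409_ag.Tor

end

section

/-! Closed points, residue fields and local rings of schemes of finite type over a field. -/

namespace Pool.Agent.MP_682409_ag.Tor

open IsLocalRing Polynomial CategoryTheory Limits AlgebraicGeometry

noncomputable section

namespace FtX

variable {A : CommRingCat.{0}} {Y : Scheme.{0}}

theorem stalk_comp (q : Y ⟶ Spec A) (w : Y) :
    Y.fromSpecStalk w ≫ q = Spec.map (CommRingCat.ofHom (sO q w)) := by
  apply ext_of_isAffine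
  have h : (Spec (Y.presheaf.stalk w)).presheaf.map (homOfLE (le_top : (⊤ : (Spec _).Opens) ≤ ⊤)).op
      = 𝟙 _ := (Spec (Y.presheaf.stalk w)).presheaf.map_id _
  rw [← cancel_epi (Scheme.ΓSpecIso A).inv, Scheme.Hom.comp_appTop, Scheme.fromSpecStalk_appTop,
    h, Category.comp_id, ← Scheme.ΓSpecIso_inv_naturality]
  rfl

theorem res_comp (q : Y ⟶ Spec A) (w : Y) :
    Y.fromSpecResidueField w ≫ q = Spec.map (CommRingCat.ofHom (sK q w)) := by
  rw [Scheme.fromSpecResidueField, Category.assoc, stalk_comp, ← Spec.map_comp]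
  rfl

theorem closed_iff {L : Type} [Field L] (q : Y ⟶ Spec (CommRingCat.of L)) [LocallyOfFiniteType q]
    (w : Y) : IsClosed {w} ↔ (sK q w).Finite := by
  have := LocallyOfFiniteType.jacobsonSpace q
  have h : IsFinite (Y.fromSpecResidueField w ≫ q) ↔ (sK q w).Finite := by
    rw [res_comp]
    exact IsFinite.SpecMap_iff _
  rw [isClosed_singleton_iff_locallyOfFiniteType, ← h,
    isFinite_iff_locallyOfFiniteType_of_jacobsonSpace]
  exact ⟨fun _ => inferInstance, fun _ => locallyOfFiniteType_of_comp _ q⟩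

theorem closure_range {R S F : Type} [CommRing R] [CommRing S] [Field F] (φ : R →+* S)
    (hφ : φ.FiniteType) (ρ : S →+* F) :
    ∃ s : Finset F, Subring.closure (Set.range (ρ.comp φ) ∪ s) = ρ.range := by
  classical
  let _ := φ.toAlgebra
  obtain ⟨t, ht⟩ := hφ.out
  refine ⟨t.image ρ, ?_⟩
  have h := congrArg Subalgebra.toSubring ht
  rw [Algebra.adjoin_eq_ring_closure] at h
  rw [RingHom.range_eq_map, ← Algebra.top_toSubring (R := R), ← h, RingHom.map_closure,
    Set.image_union, Finset.coe_image, ← Set.range_comp]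
  rfl

theorem eft (q : Y ⟶ Spec A) [LocallyOfFiniteType q] {z w : Y} (h : z ⤳ w) :
    EFT (sK q z) (ev h).range := by
  obtain ⟨U, hU, hw, -⟩ := exists_isAffineOpen_mem_and_subset (X := Y) (x := w) (U := ⊤) trivial
  have hz : z ∈ U := h.mem_open U.isOpen hw
  let φ : A ⟶ Γ(Y, U) := (Scheme.ΓSpecIso A).inv ≫ q.appLE ⊤ U le_top
  have hφ : φ.hom.FiniteType :=
    (q.finiteType_appLE (isAffineOpen_top _) hU le_top).comp
      (RingHom.FiniteType.of_surjective _
        (Scheme.ΓSpecIso A).symm.commRingCatIsoToRingEquiv.surjective)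
  let ρ : Γ(Y, U) →+* Y.residueField z := (Y.presheaf.germ U z hz ≫ Y.residue z).hom
  have h1 : ρ.comp φ.hom = sK q z := by
    have : φ ≫ Y.presheaf.germ U z hz =
        (Scheme.ΓSpecIso A).inv ≫ q.appTop ≫ Y.presheaf.germ ⊤ z trivial := by
      simp only [φ, Category.assoc, Scheme.Hom.appLE, TopCat.Presheaf.germ_res]
      rfl
    exact congrArg (fun g => (Y.residue z).hom.comp g.hom) this
  have h2 : ∀ a, ev h (Y.presheaf.germ U w hw a) = ρ a := fun a =>
    congrArg (Y.residue z).hom (Y.presheaf.germ_stalkSpecializes_apply hw h a)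
  obtain ⟨s, hs⟩ := closure_range φ.hom hφ ρ
  rw [h1] at hs
  refine ⟨s, ?_, ?_⟩
  · rw [hs]
    rintro _ ⟨a, rfl⟩
    exact ⟨_, h2 a⟩
  · rw [hs]
    rintro _ ⟨t, rfl⟩
    let _ := Y.presheaf.algebra_section_stalk (⟨w, hw⟩ : U)
    have := hU.isLocalization_stalk ⟨w, hw⟩
    obtain ⟨⟨a, b⟩, hab⟩ := IsLocalization.surj (hU.primeIdealOf ⟨w, hw⟩).asIdeal.primeCompl
      (S := Y.presheaf.stalk w) t
    obtain ⟨u, hu⟩ : IsUnit (Y.presheaf.germ U w hw b) :=
      IsLocalization.map_units (Y.presheaf.stalk w) b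
    have h3 : ρ b * ev h ↑u⁻¹ = 1 := by rw [← h2, ← hu, ← map_mul, Units.mul_inv, map_one]
    have h4 : ρ b ≠ 0 := left_ne_zero_of_mul_eq_one h3
    refine ⟨ρ a, ⟨a, rfl⟩, ρ b, ⟨b, rfl⟩, h4, ⟨_, eq_inv_of_mul_eq_one_right h3⟩, ?_⟩
    rw [eq_div_iff h4, ← h2, ← h2, ← map_mul]
    exact congrArg _ hab

theorem fg (q : Y ⟶ Spec A) [LocallyOfFiniteType q] (w : Y) : FG (sK q w) := by
  obtain ⟨s, -, hs⟩ := eft q (specializes_refl w)
  refine ⟨s, eq_top_iff.2 fun x _ => ?_⟩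
  obtain ⟨t, rfl⟩ := Y.residue_surjective w x
  have h : ev (specializes_refl w) t = (Y.residue w).hom t := by
    rw [ev, TopCat.Presheaf.stalkSpecializes_refl, Category.id_comp]
  obtain ⟨b, hb, c, hc, -, -, e⟩ := hs _ ⟨t, h⟩
  exact e ▸ div_mem (Subfield.subring_closure_le _ hb) (Subfield.subring_closure_le _ hc)

end FtX

theorem sFt : SFt := fun _ _ _ q _ w =>
  have := LocallyOfFiniteType.isLocallyNoetherian q
  ⟨FtX.closed_iff q w, FtX.fg q w, inferInstance, fun _ h => FtX.eft q h⟩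

end

end Pool.Agent.MP_682409_ag.Tor

end

section

/-! Centres of valuations on proper schemes. -/

namespace Pool.Agent.MP_682409_ag.Tor

open IsLocalRing Polynomial CategoryTheory Limits AlgebraicGeometry

noncomputable section

namespace CenX

variable {B : CommRingCat.{0}} {Y : Scheme.{0}}

theorem spec_sO (q : Y ⟶ Spec B) (x : Y) :
    Spec.map (CommRingCat.ofHom (sO q x)) = Y.fromSpecStalk x ≫ q := by
  rw [sO, CommRingCat.ofHom_hom, Spec.map_comp, Spec.map_comp, ← Scheme.fromSpecStalk_toSpecΓ,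
    Category.assoc, Category.assoc, ← Scheme.toSpecΓ_naturality_assoc,
    toSpecΓ_SpecMap_ΓSpecIso_inv, Category.comp_id]

theorem spec_ev {z w : Y} (h : z ⤳ w) :
    Spec.map (Y.presheaf.stalkSpecializes h ≫ Y.residue z) ≫ Y.fromSpecStalk w =
      Y.fromSpecResidueField z := by
  rw [Spec.map_comp, Category.assoc, Scheme.SpecMap_stalkSpecializes_fromSpecStalk,
    Scheme.fromSpecResidueField]

theorem exi (q : Y ⟶ Spec B) (hq : IsProper q) (z : Y) (ω : ValuationSubring (Y.residueField z))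
    (hω : ∀ x, sK q z x ∈ ω) : ∃ w, z ⤳ w ∧ ∃ p : Over (Gr z w), p.1.1 = ω := by
  have H : ValuativeCriterion.Existence q := by
    have h : UniversallyClosed q := inferInstance
    rw [UniversallyClosed.eq_valuativeCriterion] at h
    exact h.1
  have e : Y.fromSpecResidueField z ≫ q =
      Spec.map (CommRingCat.ofHom (algebraMap ω (Y.residueField z))) ≫
        Spec.map (CommRingCat.ofHom ((sK q z).codRestrict ω hω)) := by
    rw [Scheme.fromSpecResidueField, Category.assoc, ← spec_sO, ← Spec.map_comp, ← Spec.map_comp]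
    rfl
  obtain ⟨l, hl, -⟩ := (H { R := ω, K := Y.residueField z, commSq := ⟨e⟩, .. }).exists_lift
  dsimp only at hl
  have hs : z ⤳ l (closedPoint ω) := by
    simp_rw [← Scheme.fromSpecResidueField_apply z (closedPoint (Y.residueField z)), ← hl]
    exact (specializes_closedPoint _).map l.continuous
  have key : Scheme.stalkClosedPointTo l ≫ CommRingCat.ofHom (algebraMap ω (Y.residueField z)) =
      Y.presheaf.stalkSpecializes hs ≫ Y.residue z := by
    apply Spec.map_injective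
    rw [← cancel_mono (Y.fromSpecStalk (l (closedPoint ω))), spec_ev, Spec.map_comp,
      Category.assoc, Scheme.Spec_stalkClosedPointTo_fromSpecStalk, hl]
  refine ⟨_, hs, ⟨⟨ω, ResidueField.map (Scheme.stalkClosedPointTo l).hom⟩, ?_⟩, rfl⟩
  rw [Gr, dif_pos hs]
  rintro _ ⟨a, rfl⟩
  have h1 : ((Scheme.stalkClosedPointTo l).hom a).1 = ev hs a := congrArg (fun φ => φ.hom a) key
  have h2 : ev hs a ∈ ω := h1 ▸ ((Scheme.stalkClosedPointTo l).hom a).2
  exact ⟨h2, (ResidueField.map_residue _ a).trans (congrArg (residue ω) (Subtype.ext h1))⟩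

theorem arc {z w : Y} (h : z ⤳ w) (p : Over (Gr z w)) : ∃ l : Spec (.of p.1.1) ⟶ Y,
    l (closedPoint p.1.1) = w ∧ Spec.map (CommRingCat.ofHom (algebraMap p.1.1 (Y.residueField z))) ≫
      l = Y.fromSpecResidueField z := by
  have hp : ∀ a, ∃ h' : ev h a ∈ p.1.1, p.1.2 (Y.residue w a) = residue p.1.1 ⟨ev h a, h'⟩ :=
    fun a => p.2 (ev h a, Y.residue w a) (by rw [Gr, dif_pos h]; exact ⟨a, rfl⟩)
  choose h1 h2 using hp
  have hl : IsLocalHom ((ev h).codRestrict p.1.1 h1) := ⟨fun a ha => by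
    refine (residue_ne_zero_iff_isUnit a).1 fun h0 => (residue_ne_zero_iff_isUnit _).2 ha ?_
    have h3 : Y.residue w a = 0 := h0
    exact (h2 a).symm.trans (by rw [h3, map_zero])⟩
  refine ⟨Spec.map (CommRingCat.ofHom ((ev h).codRestrict p.1.1 h1)) ≫ Y.fromSpecStalk w, ?_, ?_⟩
  · have : Spec.map (CommRingCat.ofHom ((ev h).codRestrict p.1.1 h1)) (closedPoint p.1.1) =
        closedPoint (Y.presheaf.stalk w) := comap_closedPoint ((ev h).codRestrict p.1.1 h1)
    rw [Scheme.Hom.comp_apply, this, Y.fromSpecStalk_closedPoint]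
  · rw [← Spec.map_comp_assoc]
    exact spec_ev h

theorem uni (q : Y ⟶ Spec B) (hq : IsProper q) (z : Y) (ω : ValuationSubring (Y.residueField z))
    (l l' : Spec (.of ω) ⟶ Y)
    (h : Spec.map (CommRingCat.ofHom (algebraMap ω (Y.residueField z))) ≫ l =
      Y.fromSpecResidueField z)
    (h' : Spec.map (CommRingCat.ofHom (algebraMap ω (Y.residueField z))) ≫ l' =
      Y.fromSpecResidueField z) : l = l' := by
  have e : l' ≫ q = l ≫ q := by
    obtain ⟨f, hf⟩ := Spec.map_surjective (l ≫ q)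
    obtain ⟨f', hf'⟩ := Spec.map_surjective (l' ≫ q)
    have e1 : f' ≫ CommRingCat.ofHom (algebraMap ω (Y.residueField z)) =
        f ≫ CommRingCat.ofHom (algebraMap ω (Y.residueField z)) := by
      apply Spec.map_injective
      rw [Spec.map_comp, Spec.map_comp, hf, hf', reassoc_of% h, reassoc_of% h']
    rw [← hf, ← hf']
    congr 1
    ext x
    exact congrArg (fun φ => φ.hom x) e1
  have w : Y.fromSpecResidueField z ≫ q =
      Spec.map (CommRingCat.ofHom (algebraMap ω (Y.residueField z))) ≫ l ≫ q := by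
    rw [reassoc_of% h]
  have hS := IsSeparated.valuativeCriterion q
    { R := ω, K := Y.residueField z, commSq := ⟨w⟩, .. }
  exact congrArg CommSq.LiftStruct.l (hS.elim ⟨l, h, rfl⟩ ⟨l', h', e⟩)

end CenX

theorem sCen (h : SFn) : SCen := by
  intro B Y q hq z
  refine ⟨CenX.exi q hq z, fun w w' hw hw' p p' e => ?_⟩
  obtain ⟨l, h1, h2⟩ := CenX.arc hw p
  obtain ⟨l', h1', h2'⟩ := CenX.arc hw' p'
  generalize p.1.1 = ω at e l h1 h2
  subst e
  obtain rfl := CenX.uni q hq z _ l l' h2 h2'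
  exact h1.symm.trans h1'

end

end Pool.Agent.MP_682409_ag.Tor

end

section

/-! Properness of projective morphisms and rational points of the base change. -/

namespace Pool.Agent.MP_682409_ag.Tor

open IsLocalRing Polynomial CategoryTheory Limits AlgebraicGeometry

noncomputable section

namespace PtX

attribute [local instance] MvPolynomial.gradedAlgebra

theorem res_p {A : CommRingCat.{0}} {X : Scheme.{0}} (p : X ⟶ Spec A) (z : X) :
    X.fromSpecResidueField z ≫ p = Spec.map (CommRingCat.ofHom (sK p z)) := by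
  have h : X.fromSpecStalk z ≫ p = Spec.map
      ((Scheme.ΓSpecIso A).inv ≫ p.appTop ≫ X.presheaf.germ ⊤ z trivial) := by
    rw [Spec.map_comp, Spec.map_comp, ← Scheme.fromSpecStalk_toSpecΓ, Category.assoc,
      Category.assoc, ← Scheme.toSpecΓ_naturality_assoc, toSpecΓ_SpecMap_ΓSpecIso_inv,
      Category.comp_id]
  rw [Scheme.fromSpecResidueField, Category.assoc, h, ← Spec.map_comp]
  rfl

theorem proper (A : CommRingCat.{0}) (X : Scheme.{0}) (p : X ⟶ Spec A) (h : IsProj p) :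
    IsProper p := by
  obtain ⟨N, i, hi, rfl⟩ := h
  have : IsScalarTower A (MvPolynomial.homogeneousSubmodule (Fin (N + 1)) A 0)
      (MvPolynomial (Fin (N + 1)) A) :=
    IsScalarTower.of_algebraMap_eq (R := A)
      (S := MvPolynomial.homogeneousSubmodule (Fin (N + 1)) A 0)
      (A := MvPolynomial (Fin (N + 1)) A) fun _ => rfl
  have : Algebra.FiniteType (MvPolynomial.homogeneousSubmodule (Fin (N + 1)) A 0)
      (MvPolynomial (Fin (N + 1)) A) :=
    Algebra.FiniteType.of_restrictScalars_finiteType A _ _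
  have : IsClosedImmersion (Spec.map (CommRingCat.ofHom
      (algebraMap A (MvPolynomial.homogeneousSubmodule (Fin (N + 1)) A 0)))) := by
    apply IsClosedImmersion.spec_of_surjective
    rintro ⟨x, hx⟩
    rw [MvPolynomial.homogeneousSubmodule_zero, Submodule.mem_one] at hx
    obtain ⟨a, rfl⟩ := hx
    exact ⟨a, rfl⟩
  infer_instance

/-- A section of `q` gives a rational point. -/
theorem sec {L : Type} [Field L] {Y X : Scheme.{0}} (q : Y ⟶ Spec (CommRingCat.of L))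
    (s : Spec (CommRingCat.of L) ⟶ Y) (hs : s ≫ q = 𝟙 _) (r : Y ⟶ X) (z₀ : X)
    (j₀ : X.residueField z₀ →+* L)
    (hr : s ≫ r = Spec.map (CommRingCat.ofHom j₀) ≫ X.fromSpecResidueField z₀) :
    ∃ w₀ : Y, Function.Bijective (sK q w₀) ∧
      (⟨r w₀, (r.residueFieldMap w₀).hom⟩ : Σ y : X, X.residueField y →+* Y.residueField w₀) =
        ⟨z₀, (sK q w₀).comp j₀⟩ := by
  obtain ⟨⟨w₀, ρ⟩, hρ⟩ := (Scheme.SpecToEquivOfField L Y).symm.surjective s
  have hρ' : Spec.map ρ ≫ Y.fromSpecResidueField w₀ = s := hρ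
  have h1 : CommRingCat.ofHom (sK q w₀) ≫ ρ = 𝟙 _ := by
    apply Spec.map_injective
    rw [Spec.map_comp, ← res_p, ← Category.assoc, hρ', hs, Spec.map_id]
  have h2 : ∀ x, ρ.hom (sK q w₀ x) = x := fun x =>
    DFunLike.congr_fun (congrArg CommRingCat.Hom.hom h1) x
  have h3 : ∀ y, sK q w₀ (ρ.hom y) = y := fun y => ρ.hom.injective (h2 _)
  have h4 : ρ ≫ CommRingCat.ofHom (sK q w₀) = 𝟙 _ := by
    ext y
    exact h3 y
  refine ⟨w₀, ⟨(sK q w₀).injective, fun y => ⟨_, h3 y⟩⟩, ?_⟩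
  have h5 : Spec.map (CommRingCat.ofHom (sK q w₀)) ≫ s = Y.fromSpecResidueField w₀ := by
    rw [← hρ', ← Spec.map_comp_assoc, h4, Spec.map_id]
    exact Category.id_comp _
  have h6 : (⟨r w₀, r.residueFieldMap w₀⟩ :
      Σ y : X, X.residueField y ⟶ CommRingCat.of (Y.residueField w₀)) =
      ⟨z₀, CommRingCat.ofHom ((sK q w₀).comp j₀)⟩ := by
    apply (Scheme.SpecToEquivOfField (Y.residueField w₀) X).symm.injective
    change Spec.map (r.residueFieldMap w₀) ≫ X.fromSpecResidueField _ =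
      Spec.map (CommRingCat.ofHom j₀ ≫ CommRingCat.ofHom (sK q w₀)) ≫ X.fromSpecResidueField z₀
    rw [Scheme.Hom.SpecMap_residueFieldMap_fromSpecResidueField, Spec.map_comp, Category.assoc,
      ← hr, ← Category.assoc, h5]
  exact congrArg (fun u : Σ y : X, X.residueField y ⟶ CommRingCat.of (Y.residueField w₀) =>
    (⟨u.1, u.2.hom⟩ : Σ y : X, X.residueField y →+* Y.residueField w₀)) h6

end PtX

theorem sPt : SPt := by
  refine ⟨PtX.proper, fun A _ X p L _ φ z₀ j₀ h => ?_⟩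
  have e1 : (Spec.map (CommRingCat.ofHom j₀) ≫ X.fromSpecResidueField z₀) ≫ p =
      Spec.map φ ≫ Spec.map (CommRingCat.ofHom (algebraMap A (FractionRing A))) := by
    rw [Category.assoc, PtX.res_p, ← Spec.map_comp, ← Spec.map_comp]
    exact congrArg (fun u => Spec.map (CommRingCat.ofHom u)) h
  let x₁ := pullback.lift _ _ e1
  have e2 : x₁ ≫ gen p = 𝟙 _ ≫ Spec.map φ := by
    rw [Category.id_comp]
    exact pullback.lift_snd _ _ _
  refine PtX.sec (prL (gen p) φ) (pullback.lift _ _ e2) (pullback.lift_snd _ _ _) _ z₀ j₀ ?_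
  have e3 : pullback.lift _ _ e2 ≫ prY (gen p) φ = x₁ := pullback.lift_fst _ _ _
  exact ((Category.assoc _ _ _).symm.trans (congrArg (· ≫ pullback.fst _ _) e3)).trans
    (pullback.lift_fst _ _ _)

end

end Pool.Agent.MP_682409_ag.Tor

end
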